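import Mathlib
import Pool.Agent.Helper9.NS
import Pool.Agent.Helper15.KP.StepB

/-!
# NT: nets of conics and nets of plane cubics, definitions and the statements of the blocks

Project N (MP_83b46e_ag): Voisin's conjecture for the surfaces `q (x) = f (y)`, `q` a net of conics with smooth
discriminant curve, `f` a net of plane cubics.
-/

set_option linter.unusedSectionVars false

namespace Pool.Agent.NT28

open VC VF Function Polynomial Pool.Agent.Helper21.TO Pool.Agent.Helper15.GT Pool.Agent.Helper15.KP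
open Pool.Agent.Helper51.VN (Harm)

universe u

/-! ### The surface of pairs -/

/-- The function field `F` of a surface fibred over a curve by plane cubics: `K` is the field of the base, the
coefficients of the cubic are in `K`, `F = K (T, s, t)`, `T ^ 2 = h` is in `K`, and `ι` is the involution `T ↦ - T`. -/
structure CDB (k F : Type u) [Field k] [Field F] [Algebra k F] where
  K : IntermediateField k F
  T : F
  s : F
  t : F
  ι : F ≃ₐ[k] F
  h : K
  c : Fin 10 → K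
  hT : T ^ 2 = (h : F)
  T0 : T ≠ 0
  ιK : ∀ z : K, ι (z : F) = z
  ιT : ι T = - T
  ιs : ι s = s
  ιt : ι t = t
  tr : Transcendental K s
  gen : IntermediateField.adjoin k ((K : Set F) ∪ {T, s, t}) = ⊤
  eqn : cub (fun j => (c j : F)) s t = 0
  c0 : c 0 ≠ 0
  bin : Dbin c ≠ 0
  dsc : Dsc c ≠ 0

/-- The field `K (T)`. -/
abbrev CDB.Kt {k F : Type u} [Field k] [Field F] [Algebra k F] (D : CDB k F) : IntermediateField k F :=
  IntermediateField.adjoin k ((D.K : Set F) ∪ {D.T})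

/-- Step A over a base: `Ω` is a Galois extension of `F` with the group `G`, and of the function field
`K (x, y)` of the twisted elliptic surface with the group `Γ`; for every harmonic function `u` on the places of `F`, pull
back to `Ω`, take the trace to `K (x, y)`, pull back to `Ω` and take the trace to `F`: up to a harmonic function of
`K (T)` the result is `card G * (np * u (w) - nm * u (ι w))`. -/
structure A1B {k F : Type u} [Field k] [IsAlgClosed k] [CharZero k] [Field F] [Algebra k F] (D : CDB k F)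
    (hKt : IsFunctionField k D.Kt) (Ω : Type u) [Field Ω] [Algebra k Ω] (G Γ : Type u) [Group G] [Fintype G]
    [Group Γ] [Fintype Γ] where
  e : F →ₐ[k] Ω
  ρ : G →* (Ω ≃ₐ[k] Ω)
  fixF : ∀ z : Ω, (∀ g, ρ g z = z) → z ∈ Set.range e
  x : Ω
  y : Ω
  tr : Transcendental ((D.K).map e) x
  eqn : y ^ 2 = x ^ 3 + e (27 * D.T ^ 4 * PS (fun j => (D.c j : F))) * x +
    e (54 * D.T ^ 6 * PT (fun j => (D.c j : F)))
  ρ' : Γ →* (Ω ≃ₐ[k] Ω)
  fixE : ∀ z : Ω, (∀ g, ρ' g z = z) ↔ z ∈ IntermediateField.adjoin k (((D.K).map e : Set Ω) ∪ {x, y})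
  np : ℕ
  nm : ℕ
  hnp : 0 < np + nm
  main : ∀ u : RPl k F → k, HF k F u → ∃ μ : Place k D.Kt → k, Harm hKt μ ∧ ∀ w : RPl k Ω,
    ∑ h : G, ∑ g : Γ, u (((w.comap ((ρ h : Ω ≃ₐ[k] Ω) : Ω →ₐ[k] Ω)).comap
      ((ρ' g : Ω ≃ₐ[k] Ω) : Ω →ₐ[k] Ω)).comap e) =
      (Fintype.card G : k) * ((np : k) * u (w.comap e) -
        (nm : k) * u ((w.comap e).comap ((D.ι : F ≃ₐ[k] F) : F →ₐ[k] F))) +
        μ ((w.comap e).pl hKt D.Kt.val)

/-- BLOCK A. -/
def StmtA : Prop :=
  ∀ (k F : Type u) [Field k] [IsAlgClosed k] [CharZero k] [Field F] [Algebra k F] (D : CDB k F)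
    (_ : IsFunctionField k D.K) (hKt : IsFunctionField k D.Kt),
    ∃ (Ω : Type u) (_ : Field Ω) (_ : Algebra k Ω) (G Γ : Type u) (_ : Group G) (_ : Fintype G) (_ : Group Γ)
      (_ : Fintype Γ), Nonempty (A1B D hKt Ω G Γ)

/-- BLOCK A0: `K (T)` is a function field of one variable. -/
def StmtA0 : Prop :=
  ∀ (k F : Type u) [Field k] [IsAlgClosed k] [CharZero k] [Field F] [Algebra k F] (D : CDB k F),
    IsFunctionField k D.K → IsFunctionField k D.Kt

/-- BLOCK E: Voisin's property for the combinations of places of an elliptic surface `E = K (x, y)` whose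
restriction to the base is zero. -/
def StmtE : Prop :=
  ∀ (k K E : Type u) [Field k] [IsAlgClosed k] [CharZero k] [Field K] [Algebra k K] [Field E] [Algebra k E]
    [Algebra K E] [IsScalarTower k K E] (hK : IsFunctionField k K) (g : ℕ), IsGenus k K g →
    ∀ (a b : K), 4 * a ^ 3 + 27 * b ^ 2 ≠ 0 → (∀ c d : k, c • a ^ 3 = d • b ^ 2 → c = 0 ∧ d = 0) →
    ∀ (x y : E), Transcendental K x → y ^ 2 = x ^ 3 + algebraMap K E a * x + algebraMap K E b →
    IntermediateField.adjoin K {x, y} = ⊤ →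
    ∀ (D : Place k K →₀ ℤ), (∀ P : Place k K, 0 ≤ ord P.ring a + 4 * D P) →
      (∀ P : Place k K, 0 ≤ ord P.ring b + 6 * D P) →
    ∀ (p : ℕ), (D.sum fun _ m => m) + g ≤ p + 1 →
    ∀ (M : ℕ) (ξ : Fin M → E) (hξ : ξ ≠ 0) (n : ℕ), p < n →
      VoisinOn (proj k (van k ξ)) {b | ∃ a : RPl k E →₀ ℤ, a.sum (fun _ c => c) = 0 ∧
        a.mapDomain (RPl.pl hK (IsScalarTower.toAlgHom k K E)) = 0 ∧ b = a.mapDomain (evP ξ hξ)} n

/-- BLOCK B: the odd cycles on the surface of pairs. -/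
def StmtB : Prop :=
  ∀ (k F : Type u) [Field k] [IsAlgClosed k] [CharZero k] [Field F] [Algebra k F] (D : CDB k F)
    (hK : IsFunctionField k D.K) (hKt : IsFunctionField k D.Kt) (g : ℕ), IsGenus k D.K g →
    (∀ c d : k, c • PS D.c ^ 3 = d • PT D.c ^ 2 → c = 0 ∧ d = 0) →
    ∀ (E : Place k D.K →₀ ℤ), (∀ P : Place k D.K, 0 ≤ ord P.ring (D.h ^ 2 * PS D.c) + 4 * E P) →
      (∀ P : Place k D.K, 0 ≤ ord P.ring (D.h ^ 3 * PT D.c) + 6 * E P) →
    (∀ μ : Place k D.Kt → k, Harm hKt μ → ∀ w : RPl k F,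
      μ ((w.comap ((D.ι : F ≃ₐ[k] F) : F →ₐ[k] F)).pl hKt D.Kt.val) = μ (w.pl hKt D.Kt.val)) →
    ∀ (p : ℕ), (E.sum fun _ m => m) + g ≤ p + 1 →
    ∀ (M : ℕ) (ξ : Fin M → F) (hξ : ξ ≠ 0) (n : ℕ), p < n →
      VoisinOn (proj k (van k ξ)) {b | ∃ a ∈ Odd D.ι, b = a.mapDomain (evP ξ hξ)} n

/-! ### Nets of conics -/

section net

variable {R : Type*} [CommRing R]

/-- The conic with the parameter `e` in the net `Q`. -/
def qm (Q : Fin 3 → Matrix (Fin 3) (Fin 3) R) (e : Fin 3 → R) : Matrix (Fin 3) (Fin 3) R := ∑ i, e i • Q i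

/-- The value of the quadratic form `x ᵀ A x`. -/
def qv (A : Matrix (Fin 3) (Fin 3) R) (x : Fin 3 → R) : R := ∑ i, ∑ j, A i j * x i * x j

/-- The discriminant of the net. -/
def dl (Q : Fin 3 → Matrix (Fin 3) (Fin 3) R) (e : Fin 3 → R) : R := (qm Q e).det

/-- The gradient of the discriminant: the partial derivatives at `e`. -/
def gr (Q : Fin 3 → Matrix (Fin 3) (Fin 3) R) (e : Fin 3 → R) (i : Fin 3) : R :=
  Matrix.trace ((qm Q e).adjugate * Q i)

/-- The discriminant curve is smooth. -/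
def Smo (Q : Fin 3 → Matrix (Fin 3) (Fin 3) R) : Prop :=
  (∀ i, (Q i).transpose = Q i) ∧ ∀ e : Fin 3 → R, e ≠ 0 → dl Q e = 0 → ∃ i, gr Q e i ≠ 0

/-- The net over a larger field. -/
def ext (L : Type*) [CommRing L] [Algebra R L] (Q : Fin 3 → Matrix (Fin 3) (Fin 3) R) :
    Fin 3 → Matrix (Fin 3) (Fin 3) L := fun i => (Q i).map (algebraMap R L)

/-- Scalar product. -/
def dot (x y : Fin 3 → R) : R := x 0 * y 0 + x 1 * y 1 + x 2 * y 2

/-- Cross product. -/
def crs (x y : Fin 3 → R) : Fin 3 → R :=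
  ![x 1 * y 2 - x 2 * y 1, x 2 * y 0 - x 0 * y 2, x 0 * y 1 - x 1 * y 0]

end net

/-- BLOCK L1: the discriminant curve stays smooth over larger fields. -/
def StmtL1 : Prop :=
  ∀ (k L : Type u) [Field k] [IsAlgClosed k] [CharZero k] [Field L] [Algebra k L]
    (Q : Fin 3 → Matrix (Fin 3) (Fin 3) k), Smo Q → Smo (ext L Q)

/-- BLOCK L2: the points of the discriminant curve over a rational function field are constant. -/
def StmtL2 : Prop :=
  ∀ (k L : Type u) [Field k] [IsAlgClosed k] [CharZero k] [Field L] [Algebra k L]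
    (Q : Fin 3 → Matrix (Fin 3) (Fin 3) k), Smo Q → ∀ (s t : L), AlgebraicIndependent k ![s, t] →
    ∀ (e : Fin 3 → L), (∀ i, e i ∈ IntermediateField.adjoin k {s, t}) → e ≠ 0 → dl (ext L Q) e = 0 →
      ∃ (e' : Fin 3 → k) (u : L), e' ≠ 0 ∧ ∀ i, e i = u * algebraMap k L (e' i)

/-- BLOCK D: the discriminant curve with the coordinates `(x : y : 1)`; genus, degree, double cover. -/
def StmtD : Prop :=
  ∀ (k K : Type u) [Field k] [IsAlgClosed k] [CharZero k] [Field K] [Algebra k K]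
    (Q : Fin 3 → Matrix (Fin 3) (Fin 3) k), Smo Q → ∀ (x y : K), (¬ IsAlgebraic k x ∨ ¬ IsAlgebraic k y) →
    dl (ext K Q) ![x, y, 1] = 0 → IntermediateField.adjoin k {x, y} = ⊤ →
    IsFunctionField k K ∧ ∃ g : ℕ, IsGenus k K g ∧ g ≤ 1 ∧
      ∀ (i : Fin 3), (qm (ext K Q) ![x, y, 1]).adjugate i i ≠ 0 →
      ∃ (E : Place k K →₀ ℤ), (E.sum fun _ m => m) ≤ 3 ∧
        ∀ (P : Place k K) (H : ℤ), (0 ≤ H) → (0 ≤ ord P.ring x + H ∨ x = 0) → (0 ≤ ord P.ring y + H ∨ y = 0) →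
          (H = 0 ∨ ord P.ring x = - H ∨ ord P.ring y = - H) →
          2 * E P = 2 * H - ord P.ring ((qm (ext K Q) ![x, y, 1]).adjugate i i)

end Pool.Agent.NT28
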