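import Mathlib
import Pool.Agent.Helper28.NT.Defs
import Pool.Agent.Helper83.KPA.Coord

/-!
# NT: further block statements
-/

set_option linter.unusedSectionVars false

namespace Pool.Agent.NT28

open VC VF Function Polynomial Pool.Agent.Helper21.TO Pool.Agent.Helper15.GT Pool.Agent.Helper15.KP
open Pool.Agent.Helper83.PC (act)
open Pool.Agent.Helper83.KPA (cf)

universe u

/-- BLOCK L3: a point of the discriminant curve on the line `e 2 = 0` is constant. -/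
def StmtL3 : Prop :=
  ∀ (k L : Type u) [Field k] [IsAlgClosed k] [CharZero k] [Field L] [Algebra k L]
    (Q : Fin 3 → Matrix (Fin 3) (Fin 3) k), Smo Q →
    ∀ (e : Fin 3 → L), e 2 = 0 → e ≠ 0 → dl (ext L Q) e = 0 →
      ∃ (e' : Fin 3 → k) (u : L), e' ≠ 0 ∧ ∀ i, e i = u * algebraMap k L (e' i)

/-- BLOCK G: a form which vanishes at the generic point vanishes on the discriminant curve. -/
def StmtG : Prop :=
  ∀ (k K : Type u) [Field k] [IsAlgClosed k] [CharZero k] [Field K] [Algebra k K]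
    (Q : Fin 3 → Matrix (Fin 3) (Fin 3) k), Smo Q → ∀ (x y : K), (¬ IsAlgebraic k x ∨ ¬ IsAlgebraic k y) →
    dl (ext K Q) ![x, y, 1] = 0 → ∀ (d : ℕ) (G : MvPolynomial (Fin 3) k), G.IsHomogeneous d →
    MvPolynomial.aeval ![x, y, 1] G = 0 → ∀ e₀ : Fin 3 → k, e₀ ≠ 0 → dl Q e₀ = 0 → MvPolynomial.eval e₀ G = 0

/-- The cubic with the parameter `e` in the net `f`. -/
noncomputable def fe {k : Type u} [Field k] (f : Fin 3 → MvPolynomial (Fin 3) k) (e : Fin 3 → k) :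
    MvPolynomial (Fin 3) k := ∑ i, MvPolynomial.C (e i) * f i

/-- The coefficients of the cubic with the parameter `e` over a larger field. -/
noncomputable def ce {k : Type u} [Field k] (f : Fin 3 → MvPolynomial (Fin 3) k) {L : Type u} [Field L]
    [Algebra k L] (e : Fin 3 → L) : Fin 10 → L := fun j => ∑ i, e i * algebraMap k L (cf (f i) j)

/-- The plane curve is smooth. -/
def SmoC {k : Type u} [Field k] (P : MvPolynomial (Fin 3) k) : Prop :=
  ∀ p : Fin 3 → k, (∀ i, MvPolynomial.eval p (MvPolynomial.pderiv i P) = 0) → p = 0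

/-- BLOCK C: coordinates for the generic cubic (from StmtG and KPA: exists_trans, exists_sing, PS_act, PT_act). -/
def StmtC : Prop :=
  ∀ (k K : Type u) [Field k] [IsAlgClosed k] [CharZero k] [Field K] [Algebra k K]
    (Q : Fin 3 → Matrix (Fin 3) (Fin 3) k), Smo Q → ∀ (x y : K), (¬ IsAlgebraic k x ∨ ¬ IsAlgebraic k y) →
    dl (ext K Q) ![x, y, 1] = 0 → ∀ (f : Fin 3 → MvPolynomial (Fin 3) k), (∀ i, (f i).IsHomogeneous 3) →
    (∃ e₀ : Fin 3 → k, e₀ ≠ 0 ∧ dl Q e₀ = 0 ∧ SmoC (fe f e₀)) →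
    (∃ e₁ e₂ : Fin 3 → k, e₁ ≠ 0 ∧ e₂ ≠ 0 ∧ dl Q e₁ = 0 ∧ dl Q e₂ = 0 ∧
      PS (ce f e₁) ^ 3 * PT (ce f e₂) ^ 2 ≠ PS (ce f e₂) ^ 3 * PT (ce f e₁) ^ 2) →
    ∃ N : Matrix (Fin 3) (Fin 3) k, N.det ≠ 0 ∧ ∀ c : Fin 10 → K,
      c = act (ce f ![x, y, 1]) (N.map (algebraMap k K)) →
      c 0 ≠ 0 ∧ Dbin c ≠ 0 ∧ Dsc c ≠ 0 ∧ ∀ a b : k, a • PS c ^ 3 = b • PT c ^ 2 → a = 0 ∧ b = 0

end Pool.Agent.NT28
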