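import Mathlib
import Pool.Agent.Helper28.NT.Defs

/-!
# NT: linear algebra of singular conics through four points
-/

set_option linter.unusedSectionVars false

namespace Pool.Agent.NT28

universe u

section ring

variable {R : Type*} [CommRing R]

/-- The bilinear form. -/
def bil (A : Matrix (Fin 3) (Fin 3) R) (x y : Fin 3 → R) : R := ∑ i, ∑ j, A i j * x i * y j

/-- The image of a vector. -/
def mv (A : Matrix (Fin 3) (Fin 3) R) (x : Fin 3 → R) : Fin 3 → R := fun i => ∑ j, A i j * x j

/-- The vector of the values of the bilinear forms. -/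
def bv (Q : Fin 3 → Matrix (Fin 3) (Fin 3) R) (x y : Fin 3 → R) : Fin 3 → R := fun l => bil (Q l) x y

/-- Triple product. -/
def tri (x y z : Fin 3 → R) : R := dot (crs x y) z

lemma vec_ext {x y : Fin 3 → R} (h0 : x 0 = y 0) (h1 : x 1 = y 1) (h2 : x 2 = y 2) : x = y := by
  funext i
  match i with
  | 0 => exact h0
  | 1 => exact h1
  | 2 => exact h2

lemma crs0 (x y : Fin 3 → R) : crs x y 0 = x 1 * y 2 - x 2 * y 1 := rfl
lemma crs1 (x y : Fin 3 → R) : crs x y 1 = x 2 * y 0 - x 0 * y 2 := rfl
lemma crs2 (x y : Fin 3 → R) : crs x y 2 = x 0 * y 1 - x 1 * y 0 := rfl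

lemma qv_eq (A : Matrix (Fin 3) (Fin 3) R) (x : Fin 3 → R) : qv A x = bil A x x := rfl

lemma bil_mv (A : Matrix (Fin 3) (Fin 3) R) (x y : Fin 3 → R) : bil A x y = dot x (mv A y) := by
  simp only [bil, mv, dot, Fin.sum_univ_three]
  ring

lemma bil_qm (Q : Fin 3 → Matrix (Fin 3) (Fin 3) R) (e x y : Fin 3 → R) :
    bil (qm Q e) x y = dot e (bv Q x y) := by
  simp only [bil, bv, qm, dot, Fin.sum_univ_three, Matrix.add_apply, Matrix.smul_apply, smul_eq_mul]
  ring

lemma qm_sym {Q : Fin 3 → Matrix (Fin 3) (Fin 3) R} (hQ : ∀ i, (Q i).transpose = Q i) (e : Fin 3 → R) :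
    (qm Q e).transpose = qm Q e := by
  simp only [qm, Matrix.transpose_sum, Matrix.transpose_smul, hQ]

lemma sym_apply {A : Matrix (Fin 3) (Fin 3) R} (h : A.transpose = A) (i j : Fin 3) : A i j = A j i :=
  congrFun (congrFun h j) i

lemma bil_symm {A : Matrix (Fin 3) (Fin 3) R} (h : A.transpose = A) (x y : Fin 3 → R) : bil A x y = bil A y x := by
  have h01 := sym_apply h 0 1
  have h02 := sym_apply h 0 2
  have h12 := sym_apply h 1 2
  simp only [bil, Fin.sum_univ_three]
  rw [h01, h02, h12]
  ring

lemma bv_symm {Q : Fin 3 → Matrix (Fin 3) (Fin 3) R} (hQ : ∀ i, (Q i).transpose = Q i) (x y : Fin 3 → R) :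
    bv Q x y = bv Q y x := funext fun l => bil_symm (hQ l) x y

/-- The kernel vector of a symmetric matrix and the adjugate. -/
lemma adj_ker {A : Matrix (Fin 3) (Fin 3) R} (h : A.transpose = A) {x : Fin 3 → R} (hx : mv A x = 0) (i j l : Fin 3) :
    x i * A.adjugate j l = x j * A.adjugate i l := by
  have h01 : A 1 0 = A 0 1 := sym_apply h 1 0
  have h02 : A 2 0 = A 0 2 := sym_apply h 2 0
  have h12 : A 2 1 = A 1 2 := sym_apply h 2 1
  have e0 := congrFun hx 0
  have e1 := congrFun hx 1
  have e2 := congrFun hx 2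
  simp only [mv, Fin.sum_univ_three, Pi.zero_apply] at e0 e1 e2
  rw [h01] at e1
  rw [h02, h12] at e2
  have key : ∀ i j l : Fin 3, i < j → x i * A.adjugate j l = x j * A.adjugate i l := by
    intro i j l hij
    rw [Matrix.adjugate_fin_three]
    fin_cases i <;> fin_cases j <;> first | exact absurd hij (by decide) | skip
    · fin_cases l
      · simp [h01, h02, h12]
        linear_combination (-(A 2 2)) * e1 + (A 1 2) * e2
      · simp [h01, h02, h12]
        linear_combination (A 2 2) * e0 - (A 0 2) * e2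
      · simp [h01, h02, h12]
        linear_combination (-(A 1 2)) * e0 + (A 0 2) * e1
    · fin_cases l
      · simp [h01, h02, h12]
        linear_combination (A 1 2) * e1 - (A 1 1) * e2
      · simp [h01, h02, h12]
        linear_combination (-(A 1 2)) * e0 + (A 0 1) * e2
      · simp [h01, h02, h12]
        linear_combination (A 1 1) * e0 - (A 0 1) * e1
    · fin_cases l
      · simp [h01, h02, h12]
        linear_combination (-(A 0 2)) * e1 + (A 0 1) * e2
      · simp [h01, h02, h12]
        linear_combination (A 0 2) * e0 - (A 0 0) * e2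
      · simp [h01, h02, h12]
        linear_combination (-(A 0 1)) * e0 + (A 0 0) * e1
  rcases lt_trichotomy i j with h1 | h1 | h1
  · exact key i j l h1
  · rw [h1]
  · exact (key j i l h1).symm

/-- `(t) r` in the dual basis. -/
lemma tri_expand (r x y z : Fin 3 → R) (a : Fin 3) :
    tri x y z * r a = dot r x * crs y z a + dot r y * crs z x a + dot r z * crs x y a := by
  fin_cases a <;> simp only [tri, dot, crs0, crs1, crs2, Fin.zero_eta, Fin.mk_one, Fin.reduceFinMk] <;> ring

/-- The expansion of a vector in a basis. -/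
lemma tri_expand' (r x y z : Fin 3 → R) (a : Fin 3) :
    tri x y z * r a = tri r y z * x a + tri x r z * y a + tri x y r * z a := by
  fin_cases a <;> simp only [tri, dot, crs0, crs1, crs2, Fin.zero_eta, Fin.mk_one, Fin.reduceFinMk] <;> ring

lemma crs_crs (e x y : Fin 3 → R) : crs e (crs x y) = fun a => dot e y * x a - dot e x * y a := by
  apply vec_ext <;> simp only [dot, crs0, crs1, crs2] <;> ring

lemma crs_self (x : Fin 3 → R) : crs x x = 0 := by
  apply vec_ext <;> simp only [crs0, crs1, crs2, Pi.zero_apply] <;> ring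

lemma dot_comm (x y : Fin 3 → R) : dot x y = dot y x := by unfold dot; ring

lemma dot_crs_left (x y : Fin 3 → R) : dot (crs x y) x = 0 := by
  simp only [dot, crs0, crs1, crs2]; ring

lemma dot_crs_right (x y : Fin 3 → R) : dot (crs x y) y = 0 := by
  simp only [dot, crs0, crs1, crs2]; ring

/-- The Gram determinant. -/
lemma gram (A : Matrix (Fin 3) (Fin 3) R) (h : A.transpose = A) (x y z : Fin 3 → R) (hx : bil A x x = 0)
    (hy : bil A y y = 0) (hz : bil A z z = 0) :
    A.det * tri x y z ^ 2 = 2 * bil A x y * bil A x z * bil A y z := by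
  let P : Matrix (Fin 3) (Fin 3) R := Matrix.of ![x, y, z]
  have h1 : (P * A * P.transpose).det = A.det * P.det ^ 2 := by
    rw [Matrix.det_mul, Matrix.det_mul, Matrix.det_transpose]; ring
  have h2 : P.det = tri x y z := by
    rw [Matrix.det_fin_three]
    simp only [P, Matrix.of_apply, Matrix.cons_val_zero, Matrix.cons_val_one, Matrix.cons_val, tri, dot, crs0, crs1,
      crs2]
    ring
  have h3 : ∀ i j, (P * A * P.transpose) i j = bil A (![x, y, z] i) (![x, y, z] j) := by
    intro i j
    simp only [Matrix.mul_apply, Matrix.transpose_apply, P, Matrix.of_apply, bil, Fin.sum_univ_three]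
    ring
  rw [← h2, ← h1, Matrix.det_fin_three]
  simp only [h3, Matrix.cons_val_zero, Matrix.cons_val_one, Matrix.cons_val]
  rw [hx, hy, hz, bil_symm h y x, bil_symm h z x, bil_symm h z y]
  ring

end ring

section field

variable {N : Type*} [Field N]

lemma ext3 {r x y z : Fin 3 → N} (ht : tri x y z ≠ 0) (h1 : dot r x = 0) (h2 : dot r y = 0) (h3 : dot r z = 0) :
    r = 0 := by
  funext a
  have h := tri_expand r x y z a
  rw [h1, h2, h3] at h
  have h4 : tri x y z * r a = 0 := by rw [h]; ring
  exact (mul_eq_zero.mp h4).resolve_left ht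

lemma prop_of_crs {x y : Fin 3 → N} (hx : x ≠ 0) (h : crs x y = 0) : ∃ c : N, ∀ a, y a = c * x a := by
  have h0 : x 1 * y 2 - x 2 * y 1 = 0 := congrFun h 0
  have h1 : x 2 * y 0 - x 0 * y 2 = 0 := congrFun h 1
  have h2 : x 0 * y 1 - x 1 * y 0 = 0 := congrFun h 2
  obtain ⟨i, hi⟩ := Function.ne_iff.mp hx
  simp only [Pi.zero_apply] at hi
  refine ⟨y i / x i, fun a => ?_⟩
  rw [div_mul_eq_mul_div, eq_div_iff hi]
  fin_cases i <;> fin_cases a <;> simp only [Fin.zero_eta, Fin.mk_one, Fin.reduceFinMk] <;>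
    first
    | rfl
    | linear_combination h0
    | linear_combination - h0
    | linear_combination h1
    | linear_combination - h1
    | linear_combination h2
    | linear_combination - h2

lemma crs_of_prop {x y : Fin 3 → N} {c : N} (h : ∀ a, y a = c * x a) : crs x y = 0 := by
  apply vec_ext <;> simp only [crs0, crs1, crs2, Pi.zero_apply, h] <;> ring

/-- The matrix `A` of a conic with the lines `ℓ, m`. -/
lemma adj_lines [CharZero N] {A : Matrix (Fin 3) (Fin 3) N} {l m v : Fin 3 → N} (h : A.transpose = A)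
    (h1 : ∀ x : Fin 3 → N, ∀ a, mv A x a + (crs v x a) / 2 = m a * dot l x) (a b : Fin 3) :
    v a * v b = - 4 * A.adjugate a b := by
  have h01 : A 1 0 = A 0 1 := sym_apply h 1 0
  have h02 : A 2 0 = A 0 2 := sym_apply h 2 0
  have h12 : A 2 1 = A 1 2 := sym_apply h 2 1
  have e0 := h1 ![1, 0, 0]
  have e1 := h1 ![0, 1, 0]
  have e2 := h1 ![0, 0, 1]
  have f00 := e0 0
  have f01 := e0 1
  have f02 := e0 2
  have f10 := e1 0
  have f11 := e1 1
  have f12 := e1 2
  have f20 := e2 0
  have f21 := e2 1
  have f22 := e2 2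
  simp only [mv, Fin.sum_univ_three, crs0, crs1, crs2, dot, Matrix.cons_val_zero, Matrix.cons_val_one,
    Matrix.cons_val, mul_one, mul_zero, add_zero, zero_add, sub_zero, zero_sub] at f00 f01 f02 f10 f11 f12 f20 f21 f22
  rw [h01] at f01
  rw [h02] at f02
  rw [h12] at f12
  have g00 : A 0 0 = m 0 * l 0 := by linear_combination f00
  have g11 : A 1 1 = m 1 * l 1 := by linear_combination f11
  have g22 : A 2 2 = m 2 * l 2 := by linear_combination f22
  have g01 : A 0 1 = (m 0 * l 1 + m 1 * l 0) / 2 := by linear_combination (1 / 2) * f01 + (1 / 2) * f10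
  have g02 : A 0 2 = (m 0 * l 2 + m 2 * l 0) / 2 := by linear_combination (1 / 2) * f02 + (1 / 2) * f20
  have g12 : A 1 2 = (m 1 * l 2 + m 2 * l 1) / 2 := by linear_combination (1 / 2) * f12 + (1 / 2) * f21
  have v0 : v 0 = m 2 * l 1 - m 1 * l 2 := by linear_combination f12 - f21
  have v1 : v 1 = m 0 * l 2 - m 2 * l 0 := by linear_combination f20 - f02
  have v2 : v 2 = m 1 * l 0 - m 0 * l 1 := by linear_combination f01 - f10
  rw [Matrix.adjugate_fin_three]
  fin_cases a <;> fin_cases b <;>
    simp [h01, h02, h12, g00, g11, g22, g01, g02, g12, v0, v1, v2] <;> ring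

end field

end Pool.Agent.NT28
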