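import Mathlib
import Pool.Agent.Helper28.NT.Lin

/-!
# NT: four points with the same image under a net of conics
-/

set_option linter.unusedSectionVars false

namespace Pool.Agent.NT28

universe u

section bpf

variable {L : Type*} [Field L]

lemma adj_symm {R : Type*} [CommRing R] {A : Matrix (Fin 3) (Fin 3) R} (h : A.transpose = A) (i j : Fin 3) :
    A.adjugate i j = A.adjugate j i := by
  have h1 : A.adjugate.transpose = A.adjugate := by rw [Matrix.adjugate_transpose, h]
  exact sym_apply h1 i j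

lemma gr_eq {R : Type*} [CommRing R] (Q : Fin 3 → Matrix (Fin 3) (Fin 3) R) (e : Fin 3 → R) (i : Fin 3) :
    gr Q e i = ∑ a, ∑ b, (qm Q e).adjugate a b * Q i b a := by
  unfold gr
  rw [Matrix.trace]
  refine Finset.sum_congr rfl fun a _ => ?_
  rw [Matrix.diag_apply, Matrix.mul_apply]

lemma exists_quad {M : Type*} [Field M] [IsAlgClosed M] {a : M} (ha : a ≠ 0) (b c : M) :
    ∃ r : M, a * r ^ 2 + 2 * c * r + b = 0 := by
  obtain ⟨s, hs⟩ := IsAlgClosed.exists_pow_nat_eq (c ^ 2 - a * b) (n := 2) (by norm_num)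
  refine ⟨(s - c) / a, ?_⟩
  field_simp
  linear_combination hs

/-- The net has no base points. -/
theorem bpf {Q : Fin 3 → Matrix (Fin 3) (Fin 3) L} (h : Smo Q) {x : Fin 3 → L} (hx : x ≠ 0) :
    ∃ j, qv (Q j) x ≠ 0 := by
  by_contra hcon
  push Not at hcon
  let B : Matrix (Fin 3) (Fin 3) L := Matrix.of fun j => mv (Q j) x
  have hB : B.mulVec x = 0 := by
    funext j
    have h1 := hcon j
    rw [qv_eq, bil_mv] at h1
    simp only [Matrix.mulVec, dotProduct, B, Matrix.of_apply, Fin.sum_univ_three, Pi.zero_apply]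
    unfold dot at h1
    linear_combination h1
  have hdet : B.det = 0 := Matrix.exists_mulVec_eq_zero_iff.mp ⟨x, hx, hB⟩
  obtain ⟨e, he, heB⟩ := Matrix.exists_vecMul_eq_zero_iff.mpr hdet
  have hk : mv (qm Q e) x = 0 := by
    funext a
    have h1 := congrFun heB a
    simp only [Matrix.vecMul, dotProduct, B, Matrix.of_apply, Fin.sum_univ_three, Pi.zero_apply, mv] at h1
    simp only [mv, qm, Matrix.sum_apply, Matrix.smul_apply, smul_eq_mul, Fin.sum_univ_three, Pi.zero_apply]
    linear_combination h1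
  have hd : dl Q e = 0 := by
    refine Matrix.exists_mulVec_eq_zero_iff.mp ⟨x, hx, ?_⟩
    funext a
    exact congrFun hk a
  obtain ⟨i, hi⟩ := h.2 e he hd
  apply hi
  obtain ⟨l, hl⟩ := Function.ne_iff.mp hx
  simp only [Pi.zero_apply] at hl
  have hs := qm_sym h.1 e
  have h1 : ∀ a b, x l * x l * (qm Q e).adjugate a b = x a * x b * (qm Q e).adjugate l l := by
    intro a b
    have h2 := adj_ker hs hk l a b
    have h3 := adj_ker hs hk l b l
    rw [adj_symm hs b l] at h3
    linear_combination x l * h2 + x a * h3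
  have h2 : x l * x l * gr Q e i = (qm Q e).adjugate l l * qv (Q i) x := by
    rw [gr_eq, qv_eq, bil]
    simp only [Fin.sum_univ_three, mul_add]
    have e00 := h1 0 0
    have e01 := h1 0 1
    have e02 := h1 0 2
    have e10 := h1 1 0
    have e11 := h1 1 1
    have e12 := h1 1 2
    have e20 := h1 2 0
    have e21 := h1 2 1
    have e22 := h1 2 2
    linear_combination Q i 0 0 * e00 + Q i 1 0 * e01 + Q i 2 0 * e02 + Q i 0 1 * e10 + Q i 1 1 * e11 +
      Q i 2 1 * e12 + Q i 0 2 * e20 + Q i 1 2 * e21 + Q i 2 2 * e22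
  rw [hcon i, mul_zero] at h2
  exact (mul_eq_zero.mp h2).resolve_left (mul_ne_zero hl hl)

/-- Rank two. -/
lemma adj_ne {Q : Fin 3 → Matrix (Fin 3) (Fin 3) L} (h : Smo Q) {e : Fin 3 → L} (he : e ≠ 0) (hd : dl Q e = 0) :
    ∃ a b, (qm Q e).adjugate a b ≠ 0 := by
  by_contra hcon
  push Not at hcon
  obtain ⟨i, hi⟩ := h.2 e he hd
  apply hi
  rw [gr_eq]
  simp [hcon]

end bpf

section maps

variable {R S : Type*} [CommRing R] [CommRing S] [Algebra R S]

lemma ext_apply (S : Type*) [CommRing S] [Algebra R S] (Q : Fin 3 → Matrix (Fin 3) (Fin 3) R) (i a b : Fin 3) :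
    ext S Q i a b = algebraMap R S (Q i a b) := rfl

lemma map_qv (Q : Matrix (Fin 3) (Fin 3) R) (f : R →+* S) (x : Fin 3 → R) :
    qv (Q.map f) (fun a => f (x a)) = f (qv Q x) := by
  simp only [qv, Fin.sum_univ_three, Matrix.map_apply, map_add, map_mul]

lemma map_bil (Q : Matrix (Fin 3) (Fin 3) R) (f : R →+* S) (x y : Fin 3 → R) :
    bil (Q.map f) (fun a => f (x a)) (fun a => f (y a)) = f (bil Q x y) := by
  simp only [bil, Fin.sum_univ_three, Matrix.map_apply, map_add, map_mul]

lemma map_crs (f : R →+* S) (x y : Fin 3 → R) (a : Fin 3) :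
    crs (fun a => f (x a)) (fun a => f (y a)) a = f (crs x y a) := by
  fin_cases a <;> simp only [crs0, crs1, crs2, map_sub, map_mul, Fin.zero_eta, Fin.mk_one, Fin.reduceFinMk]

lemma map_dot (f : R →+* S) (x y : Fin 3 → R) : dot (fun a => f (x a)) (fun a => f (y a)) = f (dot x y) := by
  simp only [dot, map_add, map_mul]

end maps

/-- Four points with the same image `f` under the net of conics `Q`. -/
structure Pts (k N : Type u) [Field k] [Field N] [Algebra k N] where
  Q : Fin 3 → Matrix (Fin 3) (Fin 3) k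
  smo : ∀ (L : Type u) [Field L] [Algebra k L], Smo (ext L Q)
  f : Fin 3 → N
  f0 : f ≠ 0
  p : Fin 4 → Fin 3 → N
  ind : ∀ i j, i ≠ j → crs (p i) (p j) ≠ 0
  lam : Fin 4 → N
  q : ∀ i l, qv (ext N Q l) (p i) = lam i * f l

namespace Pts

variable {k N : Type u} [Field k] [Field N] [CharZero N] [Algebra k N] (D : Pts k N)

/-- The net over `N`. -/
abbrev QN : Fin 3 → Matrix (Fin 3) (Fin 3) N := ext N D.Q

lemma sym (i : Fin 3) : (D.QN i).transpose = D.QN i := (D.smo N).1 i

lemma p_ne (i : Fin 4) : D.p i ≠ 0 := by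
  obtain ⟨j, hj⟩ : ∃ j : Fin 4, i ≠ j := by
    rcases eq_or_ne i 0 with h | h
    · exact ⟨1, by rw [h]; decide⟩
    · exact ⟨0, h⟩
  intro h
  apply D.ind i j hj
  rw [h]
  apply vec_ext <;> simp only [crs0, crs1, crs2, Pi.zero_apply] <;> ring

lemma lam_ne (i : Fin 4) : D.lam i ≠ 0 := by
  intro h
  obtain ⟨j, hj⟩ := bpf (D.smo N) (D.p_ne i)
  apply hj
  rw [D.q, h, zero_mul]

/-- The vector `b` of the pair is not proportional to `f`. -/
theorem crs_b {x y : Fin 3 → N} (hxy : crs x y ≠ 0) {a b : N} (ha : a ≠ 0) (hx : ∀ l, qv (D.QN l) x = a * D.f l)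
    (hy : ∀ l, qv (D.QN l) y = b * D.f l) : crs D.f (bv D.QN x y) ≠ 0 := by
  intro h
  obtain ⟨c, hc⟩ := prop_of_crs D.f0 h
  let M := AlgebraicClosure N
  let i : N →+* M := algebraMap N M
  have hi : Function.Injective i := (algebraMap N M).injective
  have hM2 : (2 : M) ≠ 0 := by
    have : (2 : M) = i 2 := by rw [map_ofNat]
    rw [this]
    exact (_root_.map_ne_zero i).mpr two_ne_zero
  obtain ⟨r, hr⟩ : ∃ r : M, i a * r ^ 2 + 2 * i c * r + i b = 0 :=
    exists_quad ((_root_.map_ne_zero i).mpr ha) _ _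
  let z : Fin 3 → M := fun l => r * i (x l) + i (y l)
  have hQ : ∀ l, ext M D.Q l = (D.QN l).map i := by
    intro l
    ext u v
    exact IsScalarTower.algebraMap_apply k N M (D.Q l u v)
  have hz : ∀ l, qv (ext M D.Q l) z = 0 := by
    intro l
    have h1 : qv (ext M D.Q l) z = r ^ 2 * i (qv (D.QN l) x) + 2 * r * i (bil (D.QN l) x y) + i (qv (D.QN l) y) := by
      have hs := sym_apply (D.sym l)
      have e0 : D.QN l 1 0 = D.QN l 0 1 := hs 1 0
      have e1 : D.QN l 2 0 = D.QN l 0 2 := hs 2 0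
      have e2 : D.QN l 2 1 = D.QN l 1 2 := hs 2 1
      rw [hQ]
      simp only [qv, bil, Fin.sum_univ_three, Matrix.map_apply, z, map_add, map_mul, e0, e1, e2]
      ring
    rw [h1, hx, hy]
    have h2 : bil (D.QN l) x y = c * D.f l := hc l
    rw [h2, map_mul, map_mul, map_mul]
    linear_combination i (D.f l) * hr
  have hz0 : z = 0 := by
    by_contra hne
    obtain ⟨j, hj⟩ := bpf (D.smo M) hne
    exact hj (hz j)
  apply hxy
  funext l
  apply hi
  rw [Pi.zero_apply, map_zero, ← map_crs]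
  have h3 : ∀ l, i (y l) = (-r) * i (x l) := by
    intro l
    have := congrFun hz0 l
    simp only [z, Pi.zero_apply] at this
    linear_combination this
  exact congrFun (crs_of_prop h3) l

/-- The parameter of the conic through the four points which contains the line through the points `i, j`. -/
def e (i j : Fin 4) : Fin 3 → N := crs D.f (bv D.QN (D.p i) (D.p j))

lemma e_ne {i j : Fin 4} (h : i ≠ j) : D.e i j ≠ 0 :=
  D.crs_b (D.ind i j h) (D.lam_ne i) (D.q i) (D.q j)

lemma e_symm (i j : Fin 4) : D.e i j = D.e j i := by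
  unfold e
  rw [bv_symm D.sym]

lemma e_f (i j : Fin 4) : dot (D.e i j) D.f = 0 := dot_crs_left _ _

lemma e_b (i j : Fin 4) : bil (qm D.QN (D.e i j)) (D.p i) (D.p j) = 0 := by
  rw [bil_qm]
  exact dot_crs_right _ _

/-- The conics of the pencil contain the four points. -/
lemma mem_of_f {e : Fin 3 → N} (he : dot e D.f = 0) (i : Fin 4) : bil (qm D.QN e) (D.p i) (D.p i) = 0 := by
  rw [bil_qm]
  have h : bv D.QN (D.p i) (D.p i) = fun l => D.lam i * D.f l := funext fun l => D.q i l
  rw [h]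
  unfold dot at he ⊢
  linear_combination D.lam i * he

/-- No three of the points are collinear. -/
theorem tri_ne {i j l : Fin 4} (hij : i ≠ j) (hil : i ≠ l) (hjl : j ≠ l) : tri (D.p i) (D.p j) (D.p l) ≠ 0 := by
  intro h
  -- a linear relation
  let B : Matrix (Fin 3) (Fin 3) N := Matrix.of ![D.p i, D.p j, D.p l]
  have hB : B.det = 0 := by
    rw [← h, Matrix.det_fin_three]
    simp only [B, Matrix.of_apply, Matrix.cons_val_zero, Matrix.cons_val_one, Matrix.cons_val, tri, dot, crs0, crs1,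
      crs2]
    ring
  obtain ⟨c, hc, hcB⟩ := Matrix.exists_vecMul_eq_zero_iff.mpr hB
  have hr : ∀ a, c 0 * D.p i a + c 1 * D.p j a + c 2 * D.p l a = 0 := by
    intro a
    have h1 := congrFun hcB a
    simp only [Matrix.vecMul, dotProduct, B, Matrix.of_apply, Fin.sum_univ_three, Pi.zero_apply,
      Matrix.cons_val_zero, Matrix.cons_val_one, Matrix.cons_val] at h1
    exact h1
  have two : ∀ {u v : Fin 4} {α β : N}, u ≠ v → (∀ a, α * D.p u a + β * D.p v a = 0) → α = 0 ∧ β = 0 := by
    intro u v α β huv h1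
    constructor
    · by_contra hα
      apply D.ind v u huv.symm
      refine crs_of_prop (c := - β / α) fun a => ?_
      field_simp
      linear_combination h1 a
    · by_contra hβ
      apply D.ind u v huv
      refine crs_of_prop (c := - α / β) fun a => ?_
      field_simp
      linear_combination h1 a
  have c2 : c 2 ≠ 0 := by
    intro h0
    obtain ⟨h1, h2⟩ := two (α := c 0) (β := c 1) hij (fun a => by have := hr a; rw [h0] at this; linear_combination this)
    exact hc (vec_ext h1 h2 h0)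
  have c1 : c 1 ≠ 0 := by
    intro h0
    obtain ⟨h1, h2⟩ := two (α := c 0) (β := c 2) hil (fun a => by have := hr a; rw [h0] at this; linear_combination this)
    exact hc (vec_ext h1 h0 h2)
  have c0 : c 0 ≠ 0 := by
    intro h0
    obtain ⟨h1, h2⟩ := two (α := c 1) (β := c 2) hjl (fun a => by have := hr a; rw [h0] at this; linear_combination this)
    exact hc (vec_ext h0 h1 h2)
  apply D.crs_b (D.ind i j hij) (D.lam_ne i) (D.q i) (D.q j)
  refine crs_of_prop (c := (c 2 ^ 2 * D.lam l - c 0 ^ 2 * D.lam i - c 1 ^ 2 * D.lam j) / (2 * c 0 * c 1)) fun a => ?_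
  have h1 := D.q i a
  have h2 := D.q j a
  have h3 := D.q l a
  have hs := sym_apply (D.sym a)
  have e0 : D.QN a 1 0 = D.QN a 0 1 := hs 1 0
  have e1 : D.QN a 2 0 = D.QN a 0 2 := hs 2 0
  have e2 : D.QN a 2 1 = D.QN a 1 2 := hs 2 1
  have h4 : c 2 ^ 2 * qv (D.QN a) (D.p l) = c 0 ^ 2 * qv (D.QN a) (D.p i) + c 1 ^ 2 * qv (D.QN a) (D.p j) +
      2 * c 0 * c 1 * bil (D.QN a) (D.p i) (D.p j) := by
    have r0 := hr 0
    have r1 := hr 1
    have r2 := hr 2
    have f0 : c 2 * D.p l 0 = - (c 0 * D.p i 0 + c 1 * D.p j 0) := by linear_combination r0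
    have f1 : c 2 * D.p l 1 = - (c 0 * D.p i 1 + c 1 * D.p j 1) := by linear_combination r1
    have f2 : c 2 * D.p l 2 = - (c 0 * D.p i 2 + c 1 * D.p j 2) := by linear_combination r2
    have h5 : c 2 ^ 2 * qv (D.QN a) (D.p l) = qv (D.QN a) (fun b => c 2 * D.p l b) := by
      simp only [qv, Fin.sum_univ_three]
      ring
    rw [h5]
    simp only [qv, bil, Fin.sum_univ_three, f0, f1, f2, e0, e1, e2]
    ring
  rw [h1, h2, h3] at h4
  change bil (D.QN a) (D.p i) (D.p j) = _
  field_simp
  linear_combination - h4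

/-- The discriminant on the pencil. -/
lemma dl_pencil {e : Fin 3 → N} (he : dot e D.f = 0) (i j l : Fin 4) :
    dl D.QN e * tri (D.p i) (D.p j) (D.p l) ^ 2 = 2 * bil (qm D.QN e) (D.p i) (D.p j) *
      bil (qm D.QN e) (D.p i) (D.p l) * bil (qm D.QN e) (D.p j) (D.p l) :=
  gram _ (qm_sym D.sym e) _ _ _ (D.mem_of_f he i) (D.mem_of_f he j) (D.mem_of_f he l)

lemma exists_third (i j : Fin 4) : ∃ l, i ≠ l ∧ j ≠ l := by
  revert i j; decide

lemma dl_e {i j : Fin 4} (h : i ≠ j) : dl D.QN (D.e i j) = 0 := by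
  obtain ⟨l, h1, h2⟩ := exists_third i j
  have h3 := D.dl_pencil (D.e_f i j) i j l
  rw [D.e_b, mul_zero, zero_mul, zero_mul] at h3
  exact (mul_eq_zero.mp h3).resolve_right (pow_ne_zero 2 (D.tri_ne h h1 h2))

/-- A vector orthogonal to `f` and to the vector of the pair is proportional to `e i j`. -/
lemma prop_e {e : Fin 3 → N} {i j : Fin 4} (hij : i ≠ j) (he : dot e D.f = 0)
    (hb : bil (qm D.QN e) (D.p i) (D.p j) = 0) : ∃ c : N, ∀ a, e a = c * D.e i j a := by
  apply prop_of_crs (D.e_ne hij)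
  rw [bil_qm] at hb
  have h1 : crs e (D.e i j) = 0 := by
    unfold Pts.e
    rw [crs_crs]
    funext a
    rw [he, hb]
    simp
  apply vec_ext
  · have := congrFun h1 0
    rw [crs0] at this ⊢
    simp only [Pi.zero_apply] at this ⊢
    linear_combination - this
  · have := congrFun h1 1
    rw [crs1] at this ⊢
    simp only [Pi.zero_apply] at this ⊢
    linear_combination - this
  · have := congrFun h1 2
    rw [crs2] at this ⊢
    simp only [Pi.zero_apply] at this ⊢
    linear_combination - this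

/-- The singular conics of the pencil. -/
theorem sing {e : Fin 3 → N} (he : dot e D.f = 0) (hd : dl D.QN e = 0) {i j l : Fin 4} (hij : i ≠ j) (hil : i ≠ l)
    (hjl : j ≠ l) : (∃ c : N, ∀ a, e a = c * D.e i j a) ∨ (∃ c : N, ∀ a, e a = c * D.e i l a) ∨
      ∃ c : N, ∀ a, e a = c * D.e j l a := by
  have h := D.dl_pencil he i j l
  rw [hd, zero_mul] at h
  have h1 := h.symm
  rcases mul_eq_zero.mp h1 with h1 | h1
  · rcases mul_eq_zero.mp h1 with h1 | h1
    · rcases mul_eq_zero.mp h1 with h1 | h1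
      · exact absurd h1 two_ne_zero
      · exact Or.inl (D.prop_e hij he h1)
    · exact Or.inr (Or.inl (D.prop_e hil he h1))
  · exact Or.inr (Or.inr (D.prop_e hjl he h1))

end Pts

end Pool.Agent.NT28
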