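import Mathlib
import Pool.Agent.Helper28.NT.Pts

/-!
# NT: the singular conics through the four points
-/

set_option linter.unusedSectionVars false

namespace Pool.Agent.NT28

universe u

lemma eq_zero_of_crs {N : Type*} [Field N] {v x y : Fin 3 → N} (hxy : crs x y ≠ 0) (h1 : crs v x = 0)
    (h2 : crs v y = 0) : v = 0 := by
  by_contra hv
  obtain ⟨a, ha⟩ := prop_of_crs hv h1
  obtain ⟨b, hb⟩ := prop_of_crs hv h2
  apply hxy
  apply vec_ext <;> simp only [crs0, crs1, crs2, Pi.zero_apply, ha, hb] <;> ring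

namespace Pts

variable {k N : Type u} [Field k] [Field N] [CharZero N] [Algebra k N] (D : Pts k N)

/-- `v` is the vector product of the lines of the conic `e`, the first line contains the points `i, j`. -/
def IsV (e : Fin 3 → N) (i j : Fin 4) (v : Fin 3 → N) : Prop :=
  (∀ a, mv (qm D.QN e) (D.p i) a = - crs v (D.p i) a / 2) ∧ ∀ a, mv (qm D.QN e) (D.p j) a = - crs v (D.p j) a / 2

variable {D}

lemma IsV.symm {e : Fin 3 → N} {i j : Fin 4} {v : Fin 3 → N} (h : D.IsV e i j v) : D.IsV e j i v := ⟨h.2, h.1⟩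

lemma IsV.uniq {e : Fin 3 → N} {i j : Fin 4} (hij : i ≠ j) {v v' : Fin 3 → N} (h : D.IsV e i j v)
    (h' : D.IsV e i j v') : v = v' := by
  have h1 : crs (fun a => v a - v' a) (D.p i) = 0 := by
    funext a
    have e1 := h.1 a
    have e2 := h'.1 a
    rw [e1] at e2
    have e3 : crs (fun a => v a - v' a) (D.p i) a = crs v (D.p i) a - crs v' (D.p i) a := by
      fin_cases a <;> simp only [crs0, crs1, crs2, Fin.zero_eta, Fin.mk_one, Fin.reduceFinMk] <;> ring
    rw [e3, Pi.zero_apply]
    linear_combination (-2) * e2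
  have h2 : crs (fun a => v a - v' a) (D.p j) = 0 := by
    funext a
    have e1 := h.2 a
    have e2 := h'.2 a
    rw [e1] at e2
    have e3 : crs (fun a => v a - v' a) (D.p j) a = crs v (D.p j) a - crs v' (D.p j) a := by
      fin_cases a <;> simp only [crs0, crs1, crs2, Fin.zero_eta, Fin.mk_one, Fin.reduceFinMk] <;> ring
    rw [e3, Pi.zero_apply]
    linear_combination (-2) * e2
  have h3 := eq_zero_of_crs (D.ind i j hij) h1 h2
  funext a
  have := congrFun h3 a
  simp only [Pi.zero_apply] at this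
  linear_combination this

lemma dot_mv (A : Matrix (Fin 3) (Fin 3) N) (x y : Fin 3 → N) : dot (mv A x) y = bil A y x := by
  rw [bil_mv, dot_comm]

/-- The other points. -/
theorem IsV.other {e : Fin 3 → N} {i j : Fin 4} {v : Fin 3 → N} (h : D.IsV e i j v) (he : dot e D.f = 0)
    {l : Fin 4} (hij : i ≠ j) (hil : i ≠ l) (hjl : j ≠ l) (a : Fin 3) :
    mv (qm D.QN e) (D.p l) a = crs v (D.p l) a / 2 := by
  have key : (fun a => mv (qm D.QN e) (D.p l) a - crs v (D.p l) a / 2) = 0 := by
    have hs := qm_sym D.sym e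
    have hl := D.mem_of_f he l
    have e1 : dot (mv (qm D.QN e) (D.p i)) (D.p l) = - dot (crs v (D.p i)) (D.p l) / 2 := by
      have h0 := h.1 0
      have h1 := h.1 1
      have h2 := h.1 2
      unfold dot
      linear_combination D.p l 0 * h0 + D.p l 1 * h1 + D.p l 2 * h2
    have e2 : dot (mv (qm D.QN e) (D.p j)) (D.p l) = - dot (crs v (D.p j)) (D.p l) / 2 := by
      have h0 := h.2 0
      have h1 := h.2 1
      have h2 := h.2 2
      unfold dot
      linear_combination D.p l 0 * h0 + D.p l 1 * h1 + D.p l 2 * h2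
    rw [dot_mv, bil_symm hs] at e1 e2
    have lin : ∀ x, dot (fun a => mv (qm D.QN e) (D.p l) a - crs v (D.p l) a / 2) x =
        bil (qm D.QN e) x (D.p l) - dot (crs v (D.p l)) x / 2 := by
      intro x
      rw [← dot_mv]
      unfold dot
      ring
    refine ext3 (D.tri_ne hij hil hjl) ?_ ?_ ?_
    · rw [lin, e1]
      simp only [dot, crs0, crs1, crs2]
      ring
    · rw [lin, e2]
      simp only [dot, crs0, crs1, crs2]
      ring
    · rw [lin, hl, dot_crs_right]
      ring
  have := congrFun key a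
  simp only [Pi.zero_apply] at this
  linear_combination this

/-- The existence of `v`. -/
theorem exists_v {e : Fin 3 → N} {i j : Fin 4} (hij : i ≠ j) (he : dot e D.f = 0)
    (hb : bil (qm D.QN e) (D.p i) (D.p j) = 0) : ∃ v, D.IsV e i j v := by
  obtain ⟨l, hil, hjl⟩ := exists_third i j
  have ht := D.tri_ne hij hil hjl
  set A := qm D.QN e with hA
  have hs : A.transpose = A := qm_sym D.sym e
  set t := tri (D.p i) (D.p j) (D.p l) with htt
  refine ⟨fun a => 2 / t * (bil A (D.p l) (D.p i) * D.p j a - bil A (D.p l) (D.p j) * D.p i a), ?_, ?_⟩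
  · intro a
    set v : Fin 3 → N := fun a => 2 / t * (bil A (D.p l) (D.p i) * D.p j a - bil A (D.p l) (D.p j) * D.p i a) with hv
    have key : (fun a => mv A (D.p i) a + crs v (D.p i) a / 2) = 0 := by
      have lin : ∀ x, dot (fun a => mv A (D.p i) a + crs v (D.p i) a / 2) x =
          bil A x (D.p i) + dot (crs v (D.p i)) x / 2 := by
        intro x
        rw [← dot_mv]
        unfold dot
        ring
      refine ext3 ht ?_ ?_ ?_
      · rw [lin, dot_crs_right, D.mem_of_f he i]
        ring
      · rw [lin, bil_symm hs, hb, hv]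
        simp only [dot, crs0, crs1, crs2]
        ring
      · rw [lin]
        have h1 : dot (crs v (D.p i)) (D.p l) = - 2 * bil A (D.p l) (D.p i) := by
          have h2 : t * dot (crs v (D.p i)) (D.p l) = - 2 * bil A (D.p l) (D.p i) * t := by
            have h3 : dot (crs v (D.p i)) (D.p l) = 2 / t * (- bil A (D.p l) (D.p i) * t) := by
              rw [hv, htt]
              simp only [dot, crs0, crs1, crs2, tri]
              ring
            rw [h3]
            field_simp
          have h4 : t * (dot (crs v (D.p i)) (D.p l) + 2 * bil A (D.p l) (D.p i)) = 0 := by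
            linear_combination h2
          have h5 := (mul_eq_zero.mp h4).resolve_left ht
          linear_combination h5
        rw [h1]
        ring
    have := congrFun key a
    simp only [Pi.zero_apply] at this
    linear_combination this
  · intro a
    set v : Fin 3 → N := fun a => 2 / t * (bil A (D.p l) (D.p i) * D.p j a - bil A (D.p l) (D.p j) * D.p i a) with hv
    have key : (fun a => mv A (D.p j) a + crs v (D.p j) a / 2) = 0 := by
      have lin : ∀ x, dot (fun a => mv A (D.p j) a + crs v (D.p j) a / 2) x =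
          bil A x (D.p j) + dot (crs v (D.p j)) x / 2 := by
        intro x
        rw [← dot_mv]
        unfold dot
        ring
      refine ext3 ht ?_ ?_ ?_
      · rw [lin, hb, hv]
        simp only [dot, crs0, crs1, crs2]
        ring
      · rw [lin, dot_crs_right, D.mem_of_f he j]
        ring
      · rw [lin]
        have h1 : dot (crs v (D.p j)) (D.p l) = - 2 * bil A (D.p l) (D.p j) := by
          have h2 : t * dot (crs v (D.p j)) (D.p l) = - 2 * bil A (D.p l) (D.p j) * t := by
            have h3 : dot (crs v (D.p j)) (D.p l) = 2 / t * (- bil A (D.p l) (D.p j) * t) := by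
              rw [hv, htt]
              simp only [dot, crs0, crs1, crs2, tri]
              ring
            rw [h3]
            field_simp
          have h4 : t * (dot (crs v (D.p j)) (D.p l) + 2 * bil A (D.p l) (D.p j)) = 0 := by
            linear_combination h2
          have h5 := (mul_eq_zero.mp h4).resolve_left ht
          linear_combination h5
        rw [h1]
        ring
    have := congrFun key a
    simp only [Pi.zero_apply] at this
    linear_combination this

/-- The complementary pair. -/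
theorem IsV.compl {e : Fin 3 → N} {i j : Fin 4} {v : Fin 3 → N} (h : D.IsV e i j v) (he : dot e D.f = 0)
    {l m : Fin 4} (hij : i ≠ j) (hil : i ≠ l) (hjl : j ≠ l) (him : i ≠ m) (hjm : j ≠ m) :
    D.IsV e l m (fun a => - v a) := by
  constructor
  · intro a
    rw [h.other he hij hil hjl a]
    fin_cases a <;> simp only [crs0, crs1, crs2, Fin.zero_eta, Fin.mk_one, Fin.reduceFinMk] <;> ring
  · intro a
    rw [h.other he hij him hjm a]
    fin_cases a <;> simp only [crs0, crs1, crs2, Fin.zero_eta, Fin.mk_one, Fin.reduceFinMk] <;> ring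

theorem IsV.bil_compl {e : Fin 3 → N} {i j : Fin 4} {v : Fin 3 → N} (h : D.IsV e i j v) (he : dot e D.f = 0)
    {l m : Fin 4} (hij : i ≠ j) (hil : i ≠ l) (hjl : j ≠ l) (him : i ≠ m) (hjm : j ≠ m) :
    bil (qm D.QN e) (D.p l) (D.p m) = 0 := by
  have hs := qm_sym D.sym e
  have h1 : ∀ l m : Fin 4, i ≠ l → j ≠ l → bil (qm D.QN e) (D.p m) (D.p l) = dot (crs v (D.p l)) (D.p m) / 2 := by
    intro l m hil hjl
    rw [← dot_mv]
    have e0 := h.other he hij hil hjl 0
    have e1 := h.other he hij hil hjl 1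
    have e2 := h.other he hij hil hjl 2
    unfold dot
    linear_combination D.p m 0 * e0 + D.p m 1 * e1 + D.p m 2 * e2
  have h2 := h1 l m hil hjl
  have h3 := h1 m l him hjm
  have h4 : dot (crs v (D.p m)) (D.p l) = - dot (crs v (D.p l)) (D.p m) := by
    simp only [dot, crs0, crs1, crs2]
    ring
  rw [h4] at h3
  rw [bil_symm hs] at h2
  linear_combination (1 / 2) * h2 + (1 / 2) * h3

/-- The adjugate. -/
theorem IsV.adj {e : Fin 3 → N} {i j : Fin 4} {v : Fin 3 → N} (h : D.IsV e i j v) (hij : i ≠ j) (a b : Fin 3) :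
    v a * v b = - 4 * (qm D.QN e).adjugate a b := by
  obtain ⟨l, hil, hjl⟩ := exists_third i j
  have ht := D.tri_ne hij hil hjl
  set A := qm D.QN e with hA
  have hs : A.transpose = A := qm_sym D.sym e
  refine adj_lines (l := crs (D.p i) (D.p j))
    (m := fun a => (mv A (D.p l) a + crs v (D.p l) a / 2) / tri (D.p i) (D.p j) (D.p l)) hs ?_ a b
  intro x a
  rw [div_mul_eq_mul_div, eq_div_iff ht]
  have x0 := tri_expand' x (D.p i) (D.p j) (D.p l) 0
  have x1 := tri_expand' x (D.p i) (D.p j) (D.p l) 1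
  have x2 := tri_expand' x (D.p i) (D.p j) (D.p l) 2
  have f1 := h.1 a
  have f2 := h.2 a
  have h3 : dot (crs (D.p i) (D.p j)) x = tri (D.p i) (D.p j) x := rfl
  rw [h3]
  simp only [mv, Fin.sum_univ_three] at f1 f2 ⊢
  fin_cases a
  · simp only [crs0, Fin.zero_eta] at f1 f2 ⊢
    linear_combination A 0 0 * x0 + A 0 1 * x1 + A 0 2 * x2 + (v 1 * x2 - v 2 * x1) / 2 +
      tri x (D.p j) (D.p l) * f1 + tri (D.p i) x (D.p l) * f2
  · simp only [crs1, Fin.mk_one] at f1 f2 ⊢
    linear_combination A 1 0 * x0 + A 1 1 * x1 + A 1 2 * x2 + (v 2 * x0 - v 0 * x2) / 2 +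
      tri x (D.p j) (D.p l) * f1 + tri (D.p i) x (D.p l) * f2
  · simp only [crs2, Fin.reduceFinMk] at f1 f2 ⊢
    linear_combination A 2 0 * x0 + A 2 1 * x1 + A 2 2 * x2 + (v 0 * x1 - v 1 * x0) / 2 +
      tri x (D.p j) (D.p l) * f1 + tri (D.p i) x (D.p l) * f2

/-- `v ≠ 0`. -/
theorem IsV.ne {e : Fin 3 → N} {i j : Fin 4} {v : Fin 3 → N} (h : D.IsV e i j v) (hij : i ≠ j) (he : e ≠ 0)
    (hd : dl D.QN e = 0) : v ≠ 0 := by
  intro h0
  obtain ⟨a, b, hab⟩ := adj_ne (D.smo N) he hd
  apply hab
  have h1 := h.adj hij a b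
  rw [h0, Pi.zero_apply, zero_mul] at h1
  have h4 : (4 : N) ≠ 0 := by norm_num
  have h5 : (4 : N) * (qm D.QN e).adjugate a b = 0 := by linear_combination h1
  exact (mul_eq_zero.mp h5).resolve_left h4

lemma exists_fourth (i j l : Fin 4) : ∃ m : Fin 4, i ≠ m ∧ j ≠ m ∧ l ≠ m := by
  revert i j l; decide

/-- Different pairs containing the same point have different conics. -/
theorem pair_ne {e : Fin 3 → N} (he0 : e ≠ 0) (he : dot e D.f = 0) {i j l : Fin 4} (hij : i ≠ j) (hil : i ≠ l)
    (hjl : j ≠ l) (h1 : bil (qm D.QN e) (D.p i) (D.p j) = 0) (h2 : bil (qm D.QN e) (D.p i) (D.p l) = 0) : False := by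
  obtain ⟨m, him, hjm, hlm⟩ := exists_fourth i j l
  have hs := qm_sym D.sym e
  obtain ⟨v, hv⟩ := exists_v hij he h1
  obtain ⟨v', hv'⟩ := exists_v hil he h2
  have h3 := hv.bil_compl he hij hil hjl him hjm
  have h4 := hv'.bil_compl he hil hij hjl.symm him hlm
  have hd : dl D.QN e = 0 := by
    have h5 := D.dl_pencil he i j l
    rw [h1, mul_zero, zero_mul, zero_mul] at h5
    exact (mul_eq_zero.mp h5).resolve_right (pow_ne_zero 2 (D.tri_ne hij hil hjl))
  have k1 : mv (qm D.QN e) (D.p i) = 0 := by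
    refine ext3 (D.tri_ne hij hil hjl) ?_ ?_ ?_
    · rw [dot_mv]; exact D.mem_of_f he i
    · rw [dot_mv, bil_symm hs]; exact h1
    · rw [dot_mv, bil_symm hs]; exact h2
  have k2 : mv (qm D.QN e) (D.p m) = 0 := by
    refine ext3 (D.tri_ne hjl hjm hlm) ?_ ?_ ?_
    · rw [dot_mv]; exact h4
    · rw [dot_mv]; exact h3
    · rw [dot_mv]; exact D.mem_of_f he m
  apply hv.ne hij he0 hd
  refine eq_zero_of_crs (D.ind i m him) ?_ ?_
  · funext a
    have e1 := hv.1 a
    rw [k1] at e1
    simp only [Pi.zero_apply] at e1 ⊢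
    linear_combination 2 * e1
  · funext a
    have e1 := hv.other he hij him hjm a
    rw [k2] at e1
    simp only [Pi.zero_apply] at e1 ⊢
    linear_combination (-2) * e1

/-- The point `i` is not the singular point. -/
theorem IsV.crs_ne {e : Fin 3 → N} {i j : Fin 4} {v : Fin 3 → N} (h : D.IsV e i j v) (hij : i ≠ j) (he0 : e ≠ 0)
    (he : dot e D.f = 0) (hb : bil (qm D.QN e) (D.p i) (D.p j) = 0) : crs v (D.p i) ≠ 0 := by
  intro h0
  obtain ⟨l, hil, hjl⟩ := exists_third i j
  refine pair_ne he0 he hij hil hjl hb ?_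
  rw [bil_symm (qm_sym D.sym e), ← dot_mv]
  have h1 : mv (qm D.QN e) (D.p i) = 0 := by
    funext a
    rw [h.1 a, h0]
    simp
  rw [h1]
  unfold dot
  simp

/-- The parameters of complementary pairs are proportional. -/
theorem e_compl {i j l m : Fin 4} (hij : i ≠ j) (hil : i ≠ l) (hjl : j ≠ l) (him : i ≠ m) (hjm : j ≠ m)
    (hlm : l ≠ m) : ∃ c : N, ∀ a, D.e i j a = c * D.e l m a := by
  obtain ⟨v, hv⟩ := exists_v hij (D.e_f i j) (D.e_b i j)
  exact D.prop_e hlm (D.e_f i j) (hv.bil_compl (D.e_f i j) hij hil hjl him hjm)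

/-- The parameters of the pairs which contain a common point are not proportional. -/
theorem e_not_prop {i j l : Fin 4} (hij : i ≠ j) (hil : i ≠ l) (hjl : j ≠ l) (c : N)
    (h : ∀ a, D.e i j a = c * D.e i l a) : False := by
  refine pair_ne (D.e_ne hij) (D.e_f i j) hij hil hjl (D.e_b i j) ?_
  have h1 : D.e i j = fun a => c * D.e i l a := funext h
  have h2 := D.e_b i l
  rw [bil_qm] at h2 ⊢
  rw [h1]
  unfold dot at h2 ⊢
  linear_combination c * h2

end Pts

end Pool.Agent.NT28
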