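import Mathlib
import Pool.Agent.Helper28.NT.Defs2
import Pool.Agent.Helper28.NT.Sing

/-!
# NT: statement of block P (the Prym variety of the double cover is trivial)
-/

set_option linter.unusedSectionVars false

namespace Pool.Agent.NT28

open VC VF Function Polynomial Pool.Agent.Helper21.TO Pool.Agent.Helper15.GT Pool.Agent.Helper15.KP
open Pool.Agent.Helper51.VN (Harm)

universe u

/-- BLOCK P: `K` is the field of the double cover of the discriminant curve which parametrizes the lines in the
singular conics: `e = (x, y, 1)`, the conic `e` is `(m z) (l z)` with `v = l × m`, more precisely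
`Q_e z + (v × z) / 2 = (l z) m`, and `ι` changes the sign of `v`. Harmonic functions on `K` are invariant
under `ι`. -/
def StmtP : Prop :=
  ∀ (k K : Type u) [Field k] [IsAlgClosed k] [CharZero k] [Field K] [Algebra k K] (hK : IsFunctionField k K)
    (Q : Fin 3 → Matrix (Fin 3) (Fin 3) k), Smo Q → ∀ (x y : K), (¬ IsAlgebraic k x ∨ ¬ IsAlgebraic k y) →
    dl (ext K Q) ![x, y, 1] = 0 → ∀ (v l m : Fin 3 → K),
    (∀ (z : Fin 3 → K) (a : Fin 3), mv (qm (ext K Q) ![x, y, 1]) z a + crs v z a / 2 = m a * dot l z) →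
    IntermediateField.adjoin k ({x, y} ∪ Set.range v) = ⊤ →
    ∀ (ι : K ≃ₐ[k] K), ι x = x → ι y = y → (∀ a, ι (v a) = - v a) →
    ∀ μ : Place k K → k, Harm hK μ → ∀ P : Place k K,
      μ (Place.comap hK hK ((ι : K ≃ₐ[k] K) : K →ₐ[k] K) P) = μ P

end Pool.Agent.NT28
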