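import Mathlib
import Pool.Agent.Helper28.NT.Defs3

/-!
# NT: the data of a surface given by two nets, the statement of block F and of the main theorem
-/

set_option linter.unusedSectionVars false

namespace Pool.Agent.NT28

open VC VF Function Polynomial Pool.Agent.Helper21.TO Pool.Agent.Helper15.GT Pool.Agent.Helper15.KP
open Pool.Agent.Helper51.VN (Harm)
open Pool.Agent.Helper83.PC (act)

universe u

/-- The function field `F` of the surface `q (z, w, 1) = f (s, t, 1)` in the product of two planes: `q` is a net of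
conics with smooth discriminant curve, `f` a net of cubics. -/
structure Net (k F : Type u) [Field k] [IsAlgClosed k] [CharZero k] [Field F] [Algebra k F] where
  Q : Fin 3 → Matrix (Fin 3) (Fin 3) k
  smo : Smo Q
  f : Fin 3 → MvPolynomial (Fin 3) k
  hom : ∀ i, (f i).IsHomogeneous 3
  ind : ∀ e : Fin 3 → k, fe f e = 0 → e = 0
  sm : ∃ e₀ : Fin 3 → k, e₀ ≠ 0 ∧ dl Q e₀ = 0 ∧ SmoC (fe f e₀)
  jn : ∃ e₁ e₂ : Fin 3 → k, e₁ ≠ 0 ∧ e₂ ≠ 0 ∧ dl Q e₁ = 0 ∧ dl Q e₂ = 0 ∧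
    PS (ce f e₁) ^ 3 * PT (ce f e₂) ^ 2 ≠ PS (ce f e₂) ^ 3 * PT (ce f e₁) ^ 2
  s : F
  t : F
  z : F
  w : F
  st : AlgebraicIndependent k ![s, t]
  eqn : ∀ i j, qv (ext F Q i) ![z, w, 1] * MvPolynomial.aeval ![s, t, 1] (f j) =
    qv (ext F Q j) ![z, w, 1] * MvPolynomial.aeval ![s, t, 1] (f i)
  gen : IntermediateField.adjoin k {s, t, z, w} = ⊤
  deg : Module.finrank (IntermediateField.adjoin k {s, t}) F = 4

/-- The output of block F. -/
structure FOut {k F : Type u} [Field k] [IsAlgClosed k] [CharZero k] [Field F] [Algebra k F] (D : Net k F)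
    (N F6 G : Type u) [Field N] [Algebra k N] [Field F6] [Algebra k F6] [Group G] [Fintype G] where
  C : CDB k F6
  q : QG k F N F6 G C.ι
  x : F6
  y : F6
  hK : C.K = IntermediateField.adjoin k {x, y}
  gnr : ¬ IsAlgebraic k x ∨ ¬ IsAlgebraic k y
  hdl : dl (ext F6 D.Q) ![x, y, 1] = 0
  v : Fin 3 → F6
  l : Fin 3 → F6
  m : Fin 3 → F6
  hv : ∀ (z : Fin 3 → F6) (a : Fin 3), mv (qm (ext F6 D.Q) ![x, y, 1]) z a + crs v z a / 2 = m a * dot l z
  i : Fin 3
  hT : C.T = v i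
  hιv : ∀ a, C.ι (v a) = - v a
  vKt : ∀ a, v a ∈ C.Kt
  lKt : ∀ a, l a ∈ C.Kt
  mKt : ∀ a, m a ∈ C.Kt
  M : Matrix (Fin 3) (Fin 3) k
  hM : M.det ≠ 0
  hc : ∀ j, (C.c j : F6) = act (ce D.f ![x, y, 1]) (M.map (algebraMap k F6)) j
  hj : ∀ a b : k, a • PS C.c ^ 3 = b • PT C.c ^ 2 → a = 0 ∧ b = 0

/-- BLOCK F. -/
def StmtF : Prop :=
  ∀ (k F : Type u) [Field k] [IsAlgClosed k] [CharZero k] [Field F] [Algebra k F] (D : Net k F),
    ∃ (N F6 G : Type u) (_ : Field N) (_ : Algebra k N) (_ : Field F6) (_ : Algebra k F6) (_ : Group G)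
      (_ : Fintype G), Nonempty (FOut D N F6 G)

/-- BLOCK T: the coordinate `s` is transcendental over the base. -/
def StmtT : Prop :=
  ∀ (k N : Type u) [Field k] [CharZero k] [Field N] [Algebra k N] (K : IntermediateField k N) (x : N),
    (∀ z ∈ K, IsAlgebraic (IntermediateField.adjoin k {x}) z) → ∀ (s t : N), AlgebraicIndependent k ![s, t] →
    ∀ c : Fin 10 → K, cub (fun j => (c j : N)) s t = 0 → c 0 ≠ 0 → Dbin c ≠ 0 → Dsc c ≠ 0 → Transcendental K s

/-- THE MAIN THEOREM. -/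
def StmtN : Prop :=
  ∀ (k F : Type u) [Field k] [IsAlgClosed k] [CharZero k] [Field F] [Algebra k F] (_ : Net k F), VP k F 3

end Pool.Agent.NT28
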