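import Mathlib
import Pool.Agent.Helper28.NT.Defs4

/-!
# NT: the output of block F, second form (with the four points)
-/

set_option linter.unusedSectionVars false

namespace Pool.Agent.NT28

open VC VF Function Polynomial Pool.Agent.Helper21.TO Pool.Agent.Helper15.GT Pool.Agent.Helper15.KP
open Pool.Agent.Helper51.VN (Harm)
open Pool.Agent.Helper83.PC (act)

universe u

/-- The output of block F with the four points over `N`. -/
structure FOut2 {k F : Type u} [Field k] [IsAlgClosed k] [CharZero k] [Field F] [Algebra k F] (D : Net k F)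
    (N F6 G : Type u) [Field N] [CharZero N] [Algebra k N] [Field F6] [Algebra k F6] [Group G] [Fintype G] where
  C : CDB k F6
  q : QG k F N F6 G C.ι
  x : F6
  y : F6
  hK : C.K = IntermediateField.adjoin k {x, y}
  gnr : ¬ IsAlgebraic k x ∨ ¬ IsAlgebraic k y
  hdl : dl (ext F6 D.Q) ![x, y, 1] = 0
  v : Fin 3 → F6
  i : Fin 3
  hT : C.T = v i
  hadj : ∀ a b, v a * v b = - 4 * (qm (ext F6 D.Q) ![x, y, 1]).adjugate a b
  hιv : ∀ a, C.ι (v a) = - v a
  vKt : ∀ a, v a ∈ C.Kt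
  M : Matrix (Fin 3) (Fin 3) k
  hM : M.det ≠ 0
  hc : ∀ j, (C.c j : F6) = act (ce D.f ![x, y, 1]) (M.map (algebraMap k F6)) j
  hj : ∀ a b : k, a • PS C.c ^ 3 = b • PT C.c ^ 2 → a = 0 ∧ b = 0
  /-- the four points over `N` -/
  P : Pts k N
  hPQ : P.Q = D.Q
  hPp : ∀ i, P.p i = ![q.e i D.z, q.e i D.w, 1]
  hPf : ∀ i l, P.f l = MvPolynomial.aeval ![q.e i D.s, q.e i D.t, 1] (D.f l)
  /-- the normalised parameter of a pair -/
  eh : Fin 4 → Fin 4 → Fin 3 → N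
  eh2 : ∀ i j, i ≠ j → eh i j 2 = 1
  ehs : ∀ i j, i ≠ j → ∀ a, P.e i j a = P.e i j 2 * eh i j a
  heh : ∀ (g : G) (i j : Fin 4) (a : Fin 3), i ≠ j → q.ρ g (eh i j a) = eh (q.act g i) (q.act g j) a
  /-- the vector of a pair -/
  vh : Fin 4 → Fin 4 → Fin 3 → N
  hV : ∀ i j, i ≠ j → P.IsV (eh i j) i j (vh i j)
  hvh : ∀ (g : G) (i j : Fin 4) (a : Fin 3), i ≠ j → q.ρ g (vh i j a) = vh (q.act g i) (q.act g j) a
  h6x : q.e6 x = eh 0 1 0
  h6y : q.e6 y = eh 0 1 1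
  h6v : ∀ a, q.e6 (v a) = vh 0 1 a
  hCj : ∀ j : Fin 4, j ≠ 0 → ∃ g, (q.act g 0 = 0 ∧ q.act g 1 = j) ∨ (q.act g 0 = j ∧ q.act g 1 = 0)

/-- BLOCK F, second form. -/
def StmtF2 : Prop :=
  ∀ (k F : Type u) [Field k] [IsAlgClosed k] [CharZero k] [Field F] [Algebra k F] (D : Net k F),
    ∃ (N F6 G : Type u) (_ : Field N) (_ : CharZero N) (_ : Algebra k N) (_ : Field F6) (_ : Algebra k F6)
      (_ : Group G) (_ : Fintype G), Nonempty (FOut2 D N F6 G)

end Pool.Agent.NT28
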