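import Mathlib
import Pool.Agent.Helper28.NT.Sing
import Pool.Agent.Helper50.KS.Emb
import Pool.Agent.Helper50.KS.Perm

/-!
# NT: the Galois group of a net
-/

set_option linter.unusedSectionVars false

namespace Pool.Agent.NT28

open Pool.Agent.Helper50.KS (perm perm_spec perm_mul perm_trans exists_compl splits_of_normal)

universe u

/-- A quartic extension `F` of `R` given by a net of conics. -/
structure NQ (k R F : Type u) [Field k] [Field R] [Field F] [Algebra k R] [Algebra k F] [Algebra R F]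
    [IsScalarTower k R F] where
  Q : Fin 3 → Matrix (Fin 3) (Fin 3) k
  smo : ∀ (L : Type u) [Field L] [Algebra k L], Smo (ext L Q)
  l3 : ∀ (L : Type u) [Field L] [Algebra k L] (e : Fin 3 → L), e 2 = 0 → e ≠ 0 → dl (ext L Q) e = 0 →
    ∃ (e' : Fin 3 → k) (u : L), e' ≠ 0 ∧ ∀ i, e i = u * algebraMap k L (e' i)
  f : Fin 3 → R
  f0 : f ≠ 0
  z : F
  w : F
  eqn : ∀ i j, qv (ext F Q i) ![z, w, 1] * algebraMap R F (f j) = qv (ext F Q j) ![z, w, 1] * algebraMap R F (f i)
  gen : IntermediateField.adjoin R {z, w} = ⊤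
  deg : Module.finrank R F = 4
  nc : ∀ e : Fin 3 → R, e ≠ 0 → dl (ext R Q) e = 0 → dot e f ≠ 0

namespace NQ

section field

variable {k R F : Type u} [Field k] [Field R] [Field F] [Algebra k R] [Algebra k F] [Algebra R F]
  [IsScalarTower k R F] (D : NQ k R F)

include D in
lemma fd : FiniteDimensional R F := by
  refine FiniteDimensional.of_finrank_pos ?_
  rw [D.deg]
  norm_num

theorem ext_hom {N : Type u} [Field N] [Algebra R N] {ψ ψ' : F →ₐ[R] N} (hz : ψ D.z = ψ' D.z)
    (hw : ψ D.w = ψ' D.w) : ψ = ψ' := by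
  have hfd := D.fd
  have hadj : Algebra.adjoin R ({D.z, D.w} : Set F) = ⊤ := by
    have h := IntermediateField.adjoin_toSubalgebra (F := R) (E := F) {D.z, D.w}
    rw [D.gen, IntermediateField.top_toSubalgebra] at h
    exact h.symm
  refine AlgHom.ext_of_adjoin_eq_top hadj ?_
  intro x hx
  rcases hx with rfl | hx
  · exact hz
  · rw [Set.mem_singleton_iff] at hx
    subst hx
    exact hw

end field

section main

variable {k R F N : Type u} [Field k] [Field R] [Field F] [Field N] [CharZero R] [CharZero N]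
  [Algebra k R] [Algebra k F] [Algebra k N] [Algebra R F] [Algebra R N] [Algebra F N] [IsScalarTower k R F]
  [IsScalarTower k R N] [IsScalarTower R F N] [Normal R N] [FiniteDimensional R N]
  (D : NQ k R F) (φ : Fin 4 ≃ (F →ₐ[R] N))

omit [CharZero R] [CharZero N] [Algebra F N] [IsScalarTower R F N] [Normal R N] [FiniteDimensional R N] [Field F]
  [Algebra k F] [Algebra R F] [IsScalarTower k R F] in
lemma dl_tower (Q : Fin 3 → Matrix (Fin 3) (Fin 3) k) (e : Fin 3 → R) (u : N) (e' : Fin 3 → N)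
    (h : ∀ a, e' a = u * algebraMap R N (e a)) : dl (ext N Q) e' = u ^ 3 * algebraMap R N (dl (ext R Q) e) := by
  have h1 : ∀ l a b, ext N Q l a b = algebraMap R N (ext R Q l a b) := fun l a b =>
    IsScalarTower.algebraMap_apply k R N _
  simp only [dl, qm, Matrix.det_fin_three, Fin.sum_univ_three, Matrix.add_apply, Matrix.smul_apply, smul_eq_mul, h,
    h1, map_add, map_sub, map_mul]
  ring

include D in
variable (N) in
theorem exists_enum : Nonempty (Fin 4 ≃ (F →ₐ[R] N)) := by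
  have := D.fd
  have hc : Nat.card (F →ₐ[R] N) = 4 := by
    rw [AlgHom.natCard_of_splits R F N splits_of_normal, D.deg]
  have : Finite (F →ₐ[R] N) := Nat.finite_of_card_ne_zero (by rw [hc]; norm_num)
  exact ⟨(finCongr hc.symm).trans (Finite.equivFin _).symm⟩

/-- The points. -/
def pt (i : Fin 4) : Fin 3 → N := ![φ i D.z, φ i D.w, 1]

lemma pt2 (i : Fin 4) : D.pt φ i 2 = 1 := rfl

/-- The parameter in `N`. -/
def fN (_ : Fin 4 ≃ (F →ₐ[R] N)) : Fin 3 → N := fun a => algebraMap R N (D.f a)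

lemma qv_pt (l : Fin 3) (i : Fin 4) : qv (ext N D.Q l) (D.pt φ i) = φ i (qv (ext F D.Q l) ![D.z, D.w, 1]) := by
  have h1 : ∀ a b : Fin 3, ext N D.Q l a b = φ i (ext F D.Q l a b) := by
    intro a b
    change algebraMap k N (D.Q l a b) = φ i (algebraMap k F (D.Q l a b))
    rw [IsScalarTower.algebraMap_apply k R N, IsScalarTower.algebraMap_apply k R F, AlgHom.commutes]
  simp only [qv, Fin.sum_univ_three, map_add, map_mul, h1]
  simp only [pt, Matrix.cons_val_zero, Matrix.cons_val_one, Matrix.cons_val, map_one]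

lemma ind_pt {i j : Fin 4} (h : i ≠ j) : crs (D.pt φ i) (D.pt φ j) ≠ 0 := by
  intro h0
  apply h
  apply φ.injective
  apply D.ext_hom
  · have h1 : D.pt φ i 2 * D.pt φ j 0 - D.pt φ i 0 * D.pt φ j 2 = 0 := congrFun h0 1
    rw [pt2, pt2] at h1
    have h2 : φ j D.z - φ i D.z = 0 := by
      change 1 * φ j D.z - φ i D.z * 1 = 0 at h1
      linear_combination h1
    exact (sub_eq_zero.mp h2).symm
  · have h1 : D.pt φ i 1 * D.pt φ j 2 - D.pt φ i 2 * D.pt φ j 1 = 0 := congrFun h0 0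
    rw [pt2, pt2] at h1
    have h2 : φ i D.w - φ j D.w = 0 := by
      change φ i D.w * 1 - 1 * φ j D.w = 0 at h1
      linear_combination h1
    exact sub_eq_zero.mp h2

/-- The four points of the net. -/
noncomputable def pts : Pts k N where
  Q := D.Q
  smo := D.smo
  f := D.fN φ
  f0 := by
    obtain ⟨j, hj⟩ := Function.ne_iff.mp D.f0
    intro h
    apply hj
    have h1 : algebraMap R N (D.f j) = 0 := congrFun h j
    exact (map_eq_zero_iff _ (algebraMap R N).injective).mp h1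
  p := D.pt φ
  ind := fun i j h => D.ind_pt φ h
  lam := fun i => qv (ext N D.Q (Function.ne_iff.mp D.f0).choose) (D.pt φ i) /
    D.fN φ (Function.ne_iff.mp D.f0).choose
  q := by
    intro i l
    have hj := (Function.ne_iff.mp D.f0).choose_spec
    set j := (Function.ne_iff.mp D.f0).choose with hjj
    have hj' : D.fN φ j ≠ 0 := (_root_.map_ne_zero _).mpr hj
    rw [div_mul_eq_mul_div, eq_div_iff hj']
    have h1 := congrArg (φ i) (D.eqn l j)
    rw [map_mul, map_mul, ← qv_pt, ← qv_pt, AlgHom.commutes, AlgHom.commutes] at h1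
    exact h1

lemma pts_p (i : Fin 4) (a : Fin 3) : (D.pts φ).p i a = D.pt φ i a := rfl

/-- The automorphisms permute the points. -/
lemma aut_pt (σ : N ≃ₐ[R] N) (i : Fin 4) (a : Fin 3) : σ (D.pt φ i a) = D.pt φ (perm φ σ i) a := by
  fin_cases a
  · exact perm_spec φ σ i D.z
  · exact perm_spec φ σ i D.w
  · exact map_one σ

lemma aut_k (σ : N ≃ₐ[R] N) (c : k) : σ (algebraMap k N c) = algebraMap k N c := by
  rw [IsScalarTower.algebraMap_apply k R N, AlgEquiv.commutes]

lemma aut_QN (σ : N ≃ₐ[R] N) (l a b : Fin 3) : σ ((D.pts φ).QN l a b) = (D.pts φ).QN l a b :=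
  aut_k σ _

lemma aut_f (σ : N ≃ₐ[R] N) (a : Fin 3) : σ ((D.pts φ).f a) = (D.pts φ).f a := σ.commutes _

lemma aut_bil (σ : N ≃ₐ[R] N) (l : Fin 3) (x y : Fin 3 → N) : σ (bil ((D.pts φ).QN l) x y) =
    bil ((D.pts φ).QN l) (fun a => σ (x a)) (fun a => σ (y a)) := by
  simp only [bil, Fin.sum_univ_three, map_add, map_mul, aut_QN]

lemma aut_e (σ : N ≃ₐ[R] N) (i j : Fin 4) (a : Fin 3) :
    σ ((D.pts φ).e i j a) = (D.pts φ).e (perm φ σ i) (perm φ σ j) a := by
  have h1 : ∀ l, σ (bv (D.pts φ).QN ((D.pts φ).p i) ((D.pts φ).p j) l) =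
      bv (D.pts φ).QN ((D.pts φ).p (perm φ σ i)) ((D.pts φ).p (perm φ σ j)) l := by
    intro l
    change σ (bil _ _ _) = bil _ _ _
    rw [aut_bil]
    congr 1
    · funext a
      exact D.aut_pt φ σ i a
    · funext a
      exact D.aut_pt φ σ j a
  unfold Pts.e
  fin_cases a <;>
    simp only [crs0, crs1, crs2, map_sub, map_mul, aut_f, h1, Fin.zero_eta, Fin.mk_one, Fin.reduceFinMk]

/-- The third coordinate of the parameter does not vanish. -/
theorem e2_ne {i j : Fin 4} (h : i ≠ j) : (D.pts φ).e i j 2 ≠ 0 := by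
  intro h0
  obtain ⟨e', u, he', he⟩ := D.l3 N ((D.pts φ).e i j) h0 ((D.pts φ).e_ne h) ((D.pts φ).dl_e h)
  have hu : u ≠ 0 := by
    rintro rfl
    apply (D.pts φ).e_ne h
    funext a
    rw [he a, zero_mul]
    rfl
  let eR : Fin 3 → R := fun a => algebraMap k R (e' a)
  have heR : eR ≠ 0 := by
    obtain ⟨a, ha⟩ := Function.ne_iff.mp he'
    intro h1
    apply ha
    have h2 : algebraMap k R (e' a) = 0 := congrFun h1 a
    exact (map_eq_zero_iff _ (algebraMap k R).injective).mp h2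
  have hsc : ∀ a, (D.pts φ).e i j a = u * algebraMap R N (eR a) := by
    intro a
    rw [he a, IsScalarTower.algebraMap_apply k R N]
  refine D.nc eR heR ?_ ?_
  · -- the discriminant
    have h1 := (D.pts φ).dl_e h
    have h2 : dl (D.pts φ).QN ((D.pts φ).e i j) = u ^ 3 * algebraMap R N (dl (ext R D.Q) eR) :=
      dl_tower D.Q eR u _ hsc
    rw [h2] at h1
    exact (map_eq_zero_iff _ (algebraMap R N).injective).mp ((mul_eq_zero.mp h1).resolve_left (pow_ne_zero 3 hu))
  · have h1 := (D.pts φ).e_f i j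
    have h2 : dot ((D.pts φ).e i j) (D.pts φ).f = u * algebraMap R N (dot eR D.f) := by
      unfold dot
      rw [hsc, hsc, hsc]
      change _ * algebraMap R N (D.f 0) + _ * algebraMap R N (D.f 1) + _ * algebraMap R N (D.f 2) = _
      rw [map_add, map_add, map_mul, map_mul, map_mul]
      ring
    rw [h2] at h1
    exact (map_eq_zero_iff _ (algebraMap R N).injective).mp ((mul_eq_zero.mp h1).resolve_left hu)

/-- The normalised parameter. -/
noncomputable def eh (i j : Fin 4) : Fin 3 → N := fun a => (D.pts φ).e i j a / (D.pts φ).e i j 2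

lemma eh2 {i j : Fin 4} (h : i ≠ j) : D.eh φ i j 2 = 1 := div_self (D.e2_ne φ h)

lemma eh_ne {i j : Fin 4} (h : i ≠ j) : D.eh φ i j ≠ 0 := by
  intro h0
  have h1 := D.eh2 φ h
  rw [h0] at h1
  exact zero_ne_one h1

lemma eh_symm (i j : Fin 4) : D.eh φ i j = D.eh φ j i := by
  unfold eh
  rw [(D.pts φ).e_symm]

lemma eh_scale {i j : Fin 4} (h : i ≠ j) (a : Fin 3) : (D.pts φ).e i j a = (D.pts φ).e i j 2 * D.eh φ i j a := by
  unfold eh
  rw [mul_div_cancel₀ _ (D.e2_ne φ h)]

lemma eh_scale' (i j : Fin 4) (a : Fin 3) : D.eh φ i j a = ((D.pts φ).e i j 2)⁻¹ * (D.pts φ).e i j a := by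
  unfold eh
  rw [div_eq_inv_mul]

lemma aut_eh (σ : N ≃ₐ[R] N) (i j : Fin 4) (a : Fin 3) :
    σ (D.eh φ i j a) = D.eh φ (perm φ σ i) (perm φ σ j) a := by
  unfold eh
  rw [map_div₀, aut_e, aut_e]

lemma qm_smul {A : Type*} [CommRing A] (Q : Fin 3 → Matrix (Fin 3) (Fin 3) A) (c : A) (e : Fin 3 → A) :
    qm Q (fun a => c * e a) = c • qm Q e := by
  simp only [qm, Finset.smul_sum, smul_smul]

lemma bil_smul {A : Type*} [CommRing A] (M : Matrix (Fin 3) (Fin 3) A) (c : A) (x y : Fin 3 → A) :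
    bil (c • M) x y = c * bil M x y := by
  simp only [bil, Fin.sum_univ_three, Matrix.smul_apply, smul_eq_mul]
  ring

lemma eh_f (i j : Fin 4) : dot (D.eh φ i j) (D.pts φ).f = 0 := by
  have h := (D.pts φ).e_f i j
  unfold dot at h ⊢
  rw [eh_scale', eh_scale', eh_scale']
  linear_combination ((D.pts φ).e i j 2)⁻¹ * h

lemma eh_b (i j : Fin 4) : bil (qm (D.pts φ).QN (D.eh φ i j)) ((D.pts φ).p i) ((D.pts φ).p j) = 0 := by
  have h := (D.pts φ).e_b i j
  have h1 : D.eh φ i j = fun a => ((D.pts φ).e i j 2)⁻¹ * (D.pts φ).e i j a := funext (D.eh_scale' φ i j)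
  rw [h1, qm_smul, bil_smul, h, mul_zero]

lemma eh_dl {i j : Fin 4} (h : i ≠ j) : dl (D.pts φ).QN (D.eh φ i j) = 0 := by
  have h0 := (D.pts φ).dl_e h
  have h1 : D.eh φ i j = fun a => ((D.pts φ).e i j 2)⁻¹ * (D.pts φ).e i j a := funext (D.eh_scale' φ i j)
  unfold dl at h0 ⊢
  rw [h1, qm_smul, Matrix.det_smul, h0, mul_zero]

/-- Proportional normalised vectors are equal. -/
lemma eh_uniq {e : Fin 3 → N} {i j : Fin 4} (hij : i ≠ j) (h2 : e 2 = 1) {c : N}
    (h : ∀ a, e a = c * (D.pts φ).e i j a) : e = D.eh φ i j := by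
  have h3 := h 2
  rw [h2] at h3
  have hc : c = ((D.pts φ).e i j 2)⁻¹ := by
    exact eq_inv_of_mul_eq_one_left h3.symm
  funext a
  rw [h a, hc, eh_scale']

lemma eh_compl {i j l m : Fin 4} (hij : i ≠ j) (hil : i ≠ l) (hjl : j ≠ l) (him : i ≠ m) (hjm : j ≠ m)
    (hlm : l ≠ m) : D.eh φ i j = D.eh φ l m := by
  obtain ⟨c, hc⟩ := Pts.e_compl (D := D.pts φ) hij hil hjl him hjm hlm
  refine D.eh_uniq φ hlm (D.eh2 φ hij) (c := ((D.pts φ).e i j 2)⁻¹ * c) fun a => ?_
  rw [eh_scale', hc a]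
  ring

lemma eh_diff {i j l : Fin 4} (hij : i ≠ j) (hil : i ≠ l) (hjl : j ≠ l) : D.eh φ i j ≠ D.eh φ i l := by
  intro h
  refine Pts.e_not_prop (D := D.pts φ) hij hil hjl ((D.pts φ).e i j 2 * ((D.pts φ).e i l 2)⁻¹) fun a => ?_
  rw [D.eh_scale φ hij, h, eh_scale']
  ring

/-- Pairs with the same parameter are equal or complementary. -/
lemma pair_of_eh {a b j : Fin 4} (hab : a ≠ b) (hj : j ≠ 0) (h : D.eh φ a b = D.eh φ 0 j) :
    ((a = 0 ∧ b = j) ∨ (a = j ∧ b = 0)) ∨ (a ≠ 0 ∧ a ≠ j ∧ b ≠ 0 ∧ b ≠ j) := by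
  by_cases ha0 : a = 0
  · subst ha0
    by_cases hbj : b = j
    · exact Or.inl (Or.inl ⟨rfl, hbj⟩)
    · exact absurd h (D.eh_diff φ hab hj.symm hbj)
  by_cases hb0 : b = 0
  · subst hb0
    by_cases haj : a = j
    · exact Or.inl (Or.inr ⟨haj, rfl⟩)
    · rw [D.eh_symm φ a 0] at h
      exact absurd h (D.eh_diff φ hab.symm hj.symm haj)
  by_cases haj : a = j
  · subst haj
    rw [D.eh_symm φ 0 a] at h
    exact absurd h (D.eh_diff φ hab ha0 hb0)
  by_cases hbj : b = j
  · subst hbj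
    rw [D.eh_symm φ a b, D.eh_symm φ 0 b] at h
    exact absurd h (D.eh_diff φ hab.symm hb0 ha0)
  exact Or.inr ⟨ha0, haj, hb0, hbj⟩

lemma perm_ne (σ : N ≃ₐ[R] N) {i j : Fin 4} (h : i ≠ j) : perm φ σ i ≠ perm φ σ j :=
  fun h' => h ((perm φ σ).injective h')

/-- No parameter is defined over `R`. -/
theorem not_fixed {j : Fin 4} (hj : j ≠ 0) : ∃ σ : N ≃ₐ[R] N,
    D.eh φ (perm φ σ 0) (perm φ σ j) ≠ D.eh φ 0 j := by
  by_contra hcon
  push Not at hcon
  have hG : IsGalois R N := ⟨⟩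
  have h1 : ∀ a, ∃ r : R, algebraMap R N r = D.eh φ 0 j a := by
    intro a
    rw [← Set.mem_range, IsGalois.mem_range_algebraMap_iff_fixed]
    intro σ
    rw [aut_eh, hcon]
  choose e he using h1
  refine D.nc e ?_ ?_ ?_
  · intro h0
    apply D.eh_ne φ hj.symm
    funext a
    rw [← he, h0]
    exact map_zero _
  · have h2 := D.eh_dl φ hj.symm
    have h3 : dl (D.pts φ).QN (D.eh φ 0 j) = algebraMap R N (dl (ext R D.Q) e) := by
      have h4 := dl_tower (N := N) D.Q e 1 (D.eh φ 0 j) (fun a => by rw [he, one_mul])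
      rw [one_pow, one_mul] at h4
      exact h4
    rw [h3] at h2
    exact (map_eq_zero_iff _ (algebraMap R N).injective).mp h2
  · have h2 := D.eh_f φ 0 j
    have h3 : dot (D.eh φ 0 j) (D.pts φ).f = algebraMap R N (dot e D.f) := by
      unfold dot
      rw [← he, ← he, ← he]
      change _ * algebraMap R N (D.f 0) + _ * algebraMap R N (D.f 1) + _ * algebraMap R N (D.f 2) = _
      rw [map_add, map_add, map_mul, map_mul, map_mul]
    rw [h3] at h2
    exact (map_eq_zero_iff _ (algebraMap R N).injective).mp h2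

end main

end NQ

end Pool.Agent.NT28
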