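import Mathlib
import Pool.Agent.Helper28.NT.Gal
import Pool.Agent.Helper50.KS.Qd0

/-!
# NT: conjugate pairs, the vector of a pair, the stabilizer of a pair
-/

set_option linter.unusedSectionVars false

namespace Pool.Agent.NT28

open Pool.Agent.Helper50.KS (perm perm_spec perm_mul perm_trans exists_compl splits_of_normal)

universe u

namespace NQ

variable {k R F N : Type u} [Field k] [Field R] [Field F] [Field N] [CharZero R] [CharZero N]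
  [Algebra k R] [Algebra k F] [Algebra k N] [Algebra R F] [Algebra R N] [Algebra F N] [IsScalarTower k R F]
  [IsScalarTower k R N] [IsScalarTower R F N] [Normal R N] [FiniteDimensional R N]
  (D : NQ k R F) (φ : Fin 4 ≃ (F →ₐ[R] N))

/-- The parameters of the pairs `0 i` and `0 j` are conjugate. -/
def Sc (i j : Fin 4) : Prop := ∃ σ : N ≃ₐ[R] N, ∀ a, σ (D.eh φ 0 i a) = D.eh φ 0 j a

lemma Sc.symm {i j : Fin 4} (h : D.Sc φ i j) : D.Sc φ j i := by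
  obtain ⟨σ, hσ⟩ := h
  refine ⟨σ.symm, fun a => ?_⟩
  rw [← hσ a, AlgEquiv.symm_apply_apply]

lemma Sc.trans {i j l : Fin 4} (h : D.Sc φ i j) (h' : D.Sc φ j l) : D.Sc φ i l := by
  obtain ⟨σ, hσ⟩ := h
  obtain ⟨τ, hτ⟩ := h'
  refine ⟨σ.trans τ, fun a => ?_⟩
  rw [AlgEquiv.trans_apply, hσ a, hτ a]

lemma lab {a b : Fin 4} (hab : a ≠ b) : ∃ j : Fin 4, j ≠ 0 ∧ D.eh φ a b = D.eh φ 0 j := by
  by_cases ha : a = 0
  · subst ha
    exact ⟨b, hab.symm, rfl⟩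
  by_cases hb : b = 0
  · subst hb
    exact ⟨a, ha, D.eh_symm φ a 0⟩
  obtain ⟨j, h0j, haj, hbj⟩ := Pts.exists_fourth 0 a b
  refine ⟨j, h0j.symm, ?_⟩
  exact D.eh_compl φ hab ha hb haj hbj h0j

lemma exists_Sc {i : Fin 4} (hi : i ≠ 0) : ∃ j : Fin 4, j ≠ 0 ∧ j ≠ i ∧ D.Sc φ i j := by
  obtain ⟨σ, hσ⟩ := D.not_fixed φ hi
  obtain ⟨j, hj, he⟩ := D.lab φ (perm_ne φ σ hi.symm)
  refine ⟨j, hj, ?_, σ, fun a => ?_⟩
  · rintro rfl
    exact hσ he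
  · rw [aut_eh, he]

lemma third_ne (i j : Fin 4) (hi : i ≠ 0) (hj : j ≠ 0) (hij : i ≠ j) : ∃ l : Fin 4, ∀ a : Fin 4, a ≠ 0 →
    (a = i ∨ a = j ∨ a = l) := by
  revert i j; decide

/-- All parameters are conjugate. -/
theorem all_Sc {i j : Fin 4} (hi : i ≠ 0) (hj : j ≠ 0) : D.Sc φ i j := by
  by_cases hij : i = j
  · subst hij
    exact ⟨AlgEquiv.refl, fun a => rfl⟩
  obtain ⟨l, hl⟩ := third_ne i j hi hj hij
  obtain ⟨a, ha0, hai, ha⟩ := D.exists_Sc φ hi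
  obtain ⟨b, hb0, hbj, hb⟩ := D.exists_Sc φ hj
  rcases hl a ha0 with h | h | h
  · exact absurd h hai
  · rw [h] at ha; exact ha
  · rcases hl b hb0 with h' | h' | h'
    · rw [h'] at hb; exact hb.symm
    · exact absurd h' hbj
    · rw [h] at ha
      rw [h'] at hb
      exact ha.trans D φ hb.symm

include D in
/-- All pairs containing `0` are conjugate. -/
theorem conj_pair {j : Fin 4} (hj : j ≠ 0) : ∃ σ : N ≃ₐ[R] N, (perm φ σ 0 = 0 ∧ perm φ σ 1 = j) ∨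
    (perm φ σ 0 = j ∧ perm φ σ 1 = 0) := by
  obtain ⟨σ, hσ⟩ := D.all_Sc φ (i := 1) (by decide) hj
  have h1 : D.eh φ (perm φ σ 0) (perm φ σ 1) = D.eh φ 0 j := by
    funext a
    rw [← aut_eh, hσ]
  have hne : perm φ σ 0 ≠ perm φ σ 1 := perm_ne φ σ (by decide)
  rcases D.pair_of_eh φ hne hj h1 with h | ⟨h2, h3, h4, h5⟩
  · exact ⟨σ, h⟩
  · obtain ⟨τ, hτ⟩ := Pool.Agent.Helper50.KS.Quart.exists_pair_compl φ (i := perm φ σ 0) (j := perm φ σ 1) (k := 0) (l := j)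
      hne h2 h3 h4 h5 hj.symm
    refine ⟨τ * σ, ?_⟩
    rw [perm_mul]
    exact hτ

/-- The vector of a pair. -/
noncomputable def vh (i j : Fin 4) : Fin 3 → N :=
  if h : i ≠ j then (Pts.exists_v (D := D.pts φ) h (D.eh_f φ i j) (D.eh_b φ i j)).choose else 0

lemma vh_spec {i j : Fin 4} (h : i ≠ j) : (D.pts φ).IsV (D.eh φ i j) i j (D.vh φ i j) := by
  unfold vh
  rw [dif_pos h]
  exact (Pts.exists_v (D := D.pts φ) h (D.eh_f φ i j) (D.eh_b φ i j)).choose_spec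

lemma vh_symm {i j : Fin 4} (h : i ≠ j) : D.vh φ i j = D.vh φ j i := by
  refine (D.vh_spec φ h).uniq h ?_
  rw [D.eh_symm φ i j]
  exact (D.vh_spec φ h.symm).symm

lemma vh_compl {i j l m : Fin 4} (hij : i ≠ j) (hil : i ≠ l) (hjl : j ≠ l) (him : i ≠ m) (hjm : j ≠ m)
    (hlm : l ≠ m) (a : Fin 3) : D.vh φ l m a = - D.vh φ i j a := by
  have h1 := (D.vh_spec φ hij).compl (D.eh_f φ i j) hij hil hjl him hjm
  rw [D.eh_compl φ hij hil hjl him hjm hlm] at h1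
  exact congrFun ((D.vh_spec φ hlm).uniq hlm h1) a

lemma vh_ne {i j : Fin 4} (h : i ≠ j) : D.vh φ i j ≠ 0 :=
  (D.vh_spec φ h).ne h (D.eh_ne φ h) (D.eh_dl φ h)

lemma aut_mv (σ : N ≃ₐ[R] N) (e x : Fin 3 → N) (a : Fin 3) : σ (mv (qm (D.pts φ).QN e) x a) =
    mv (qm (D.pts φ).QN (fun a => σ (e a))) (fun a => σ (x a)) a := by
  simp only [mv, qm, Fin.sum_univ_three, Matrix.add_apply, Matrix.smul_apply, smul_eq_mul, map_add, map_mul, aut_QN]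

lemma aut_crs (σ : N ≃ₐ[R] N) (x y : Fin 3 → N) (a : Fin 3) : σ (crs x y a) =
    crs (fun a => σ (x a)) (fun a => σ (y a)) a := by
  fin_cases a <;> simp only [crs0, crs1, crs2, map_sub, map_mul, Fin.zero_eta, Fin.mk_one, Fin.reduceFinMk]

lemma aut_vh (σ : N ≃ₐ[R] N) {i j : Fin 4} (h : i ≠ j) (a : Fin 3) :
    σ (D.vh φ i j a) = D.vh φ (perm φ σ i) (perm φ σ j) a := by
  have h1 := D.vh_spec φ h
  have h2 : (D.pts φ).IsV (D.eh φ (perm φ σ i) (perm φ σ j)) (perm φ σ i) (perm φ σ j)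
      (fun a => σ (D.vh φ i j a)) := by
    have e1 : (fun a => σ (D.eh φ i j a)) = D.eh φ (perm φ σ i) (perm φ σ j) := funext (D.aut_eh φ σ i j)
    have e2 : ∀ i, (fun a => σ ((D.pts φ).p i a)) = (D.pts φ).p (perm φ σ i) := fun i => funext (D.aut_pt φ σ i)
    constructor
    · intro a
      have h3 := congrArg σ (h1.1 a)
      rw [aut_mv, map_div₀, map_neg, aut_crs, e1, e2, map_ofNat] at h3
      exact h3
    · intro a
      have h3 := congrArg σ (h1.2 a)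
      rw [aut_mv, map_div₀, map_neg, aut_crs, e1, e2, map_ofNat] at h3
      exact h3
  exact congrFun (h2.uniq (perm_ne φ σ h) (D.vh_spec φ (perm_ne φ σ h))) a

/-- The automorphisms which fix the parameter and the vector. -/
theorem stab (σ : N ≃ₐ[R] N) {i₀ : Fin 3} (hi : D.vh φ 0 1 i₀ ≠ 0) (h0 : σ (D.eh φ 0 1 0) = D.eh φ 0 1 0)
    (h1 : σ (D.eh φ 0 1 1) = D.eh φ 0 1 1) (hT : σ (D.vh φ 0 1 i₀) = D.vh φ 0 1 i₀) :
    (perm φ σ 0 = 0 ∧ perm φ σ 1 = 1) ∨ (perm φ σ 0 = 1 ∧ perm φ σ 1 = 0) := by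
  have hne : perm φ σ 0 ≠ perm φ σ 1 := perm_ne φ σ (by decide)
  have h01 : (0 : Fin 4) ≠ 1 := by decide
  have h2 : D.eh φ (perm φ σ 0) (perm φ σ 1) = D.eh φ 0 1 := by
    apply vec_ext
    · rw [← aut_eh, h0]
    · rw [← aut_eh, h1]
    · rw [D.eh2 φ hne, D.eh2 φ h01]
  rcases D.pair_of_eh φ hne h01.symm h2 with h | ⟨h3, h4, h5, h6⟩
  · exact h
  · exfalso
    rw [D.aut_vh φ σ h01, D.vh_compl φ h01 h3.symm h4.symm h5.symm h6.symm hne] at hT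
    apply hi
    have h7 : (2 : N) * D.vh φ 0 1 i₀ = 0 := by linear_combination - hT
    exact (mul_eq_zero.mp h7).resolve_left two_ne_zero

lemma stab_conv (σ : N ≃ₐ[R] N)
    (h : (perm φ σ 0 = 0 ∧ perm φ σ 1 = 1) ∨ (perm φ σ 0 = 1 ∧ perm φ σ 1 = 0)) :
    (∀ a, σ (D.eh φ 0 1 a) = D.eh φ 0 1 a) ∧ ∀ a, σ (D.vh φ 0 1 a) = D.vh φ 0 1 a := by
  have h01 : (0 : Fin 4) ≠ 1 := by decide
  constructor
  · intro a
    rw [aut_eh]
    rcases h with ⟨h1, h2⟩ | ⟨h1, h2⟩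
    · rw [h1, h2]
    · rw [h1, h2, D.eh_symm φ 1 0]
  · intro a
    rw [D.aut_vh φ σ h01]
    rcases h with ⟨h1, h2⟩ | ⟨h1, h2⟩
    · rw [h1, h2]
    · rw [h1, h2, D.vh_symm φ h01.symm]

lemma swap_eh (σ : N ≃ₐ[R] N)
    (h : (perm φ σ 0 = 2 ∧ perm φ σ 1 = 3) ∨ (perm φ σ 0 = 3 ∧ perm φ σ 1 = 2)) :
    (∀ a, σ (D.eh φ 0 1 a) = D.eh φ 0 1 a) ∧ ∀ a, σ (D.vh φ 0 1 a) = - D.vh φ 0 1 a := by
  have h01 : (0 : Fin 4) ≠ 1 := by decide
  have h23 : (2 : Fin 4) ≠ 3 := by decide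
  have e1 : D.eh φ 0 1 = D.eh φ 2 3 := D.eh_compl φ h01 (by decide) (by decide) (by decide) (by decide) h23
  have e2 : ∀ a, D.vh φ 2 3 a = - D.vh φ 0 1 a := D.vh_compl φ h01 (by decide) (by decide) (by decide) (by decide) h23
  constructor
  · intro a
    rw [aut_eh]
    rcases h with ⟨h1, h2⟩ | ⟨h1, h2⟩
    · rw [h1, h2, ← e1]
    · rw [h1, h2, D.eh_symm φ 3 2, ← e1]
  · intro a
    rw [D.aut_vh φ σ h01]
    rcases h with ⟨h1, h2⟩ | ⟨h1, h2⟩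
    · rw [h1, h2, e2]
    · rw [h1, h2, D.vh_symm φ h23.symm, e2]

end NQ

end Pool.Agent.NT28
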