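import Mathlib
import Pool.Agent.Helper28.NT.Gal2
import Pool.Agent.Helper28.NT.Defs5

/-!
# NT: the field of a pair
-/

set_option linter.unusedSectionVars false

namespace Pool.Agent.NT28

open VC VF Function Polynomial Pool.Agent.Helper21.TO Pool.Agent.Helper15.GT Pool.Agent.Helper15.KP
open Pool.Agent.Helper50.KS (perm perm_spec perm_mul perm_trans exists_compl splits_of_normal range_base rsHom actHom
  fix0)
open Pool.Agent.Helper83.PC (act)

universe u

namespace NQ

section six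

variable {k R F N : Type u} [Field k] [Field R] [Field F] [Field N] [CharZero R] [CharZero N]
  [Algebra k R] [Algebra k F] [Algebra k N] [Algebra R F] [Algebra R N] [Algebra F N] [IsScalarTower k R F]
  [IsScalarTower k R N] [IsScalarTower R F N] [Normal R N] [FiniteDimensional R N]
  (D : NQ k R F) (φ : Fin 4 ≃ (F →ₐ[R] N))

/-- The field of the pair `0, 1`. -/
noncomputable def E6 (i₀ : Fin 3) : IntermediateField R N :=
  IntermediateField.adjoin R {D.eh φ 0 1 0, D.eh φ 0 1 1, D.vh φ 0 1 i₀}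

theorem fix6 {i₀ : Fin 3} (hi : D.vh φ 0 1 i₀ ≠ 0) (z : N) :
    (∀ σ : N ≃ₐ[R] N, (perm φ σ 0 = 0 ∧ perm φ σ 1 = 1) ∨ (perm φ σ 0 = 1 ∧ perm φ σ 1 = 0) → σ z = z) ↔
      z ∈ D.E6 φ i₀ := by
  have hG : IsGalois R N := ⟨⟩
  constructor
  · intro h
    rw [← IsGalois.fixedField_fixingSubgroup (D.E6 φ i₀), IntermediateField.mem_fixedField_iff]
    intro σ hσ
    rw [IntermediateField.mem_fixingSubgroup_iff] at hσ
    refine h σ (D.stab φ σ hi ?_ ?_ ?_)
    · exact hσ _ (IntermediateField.subset_adjoin R _ (Or.inl rfl))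
    · exact hσ _ (IntermediateField.subset_adjoin R _ (Or.inr (Or.inl rfl)))
    · exact hσ _ (IntermediateField.subset_adjoin R _ (Or.inr (Or.inr rfl)))
  · intro hz σ hσ
    obtain ⟨h1, h2⟩ := D.stab_conv φ σ hσ
    have h3 : (σ.toAlgHom.comp (D.E6 φ i₀).val) = (D.E6 φ i₀).val := by
      refine IntermediateField.algHom_ext_of_eq_adjoin R rfl ?_
      intro y hy
      rcases hy with rfl | rfl | hy
      · exact h1 0
      · exact h1 1
      · rw [Set.mem_singleton_iff] at hy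
        subst hy
        exact h2 i₀
    exact DFunLike.congr_fun h3 ⟨z, hz⟩

lemma mem_e6 (i₀ : Fin 3) (a : Fin 3) : D.eh φ 0 1 a ∈ D.E6 φ i₀ := by
  fin_cases a
  · exact IntermediateField.subset_adjoin R _ (Or.inl rfl)
  · exact IntermediateField.subset_adjoin R _ (Or.inr (Or.inl rfl))
  · change D.eh φ 0 1 2 ∈ _
    rw [D.eh2 φ (by decide)]
    exact one_mem _

lemma mem_v6 {i₀ : Fin 3} (hi : D.vh φ 0 1 i₀ ≠ 0) (a : Fin 3) : D.vh φ 0 1 a ∈ D.E6 φ i₀ :=
  (D.fix6 φ hi _).mp fun σ hσ => (D.stab_conv φ σ hσ).2 a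

/-- The involution of the field of the pair. -/
theorem exists_io {i₀ : Fin 3} (hi : D.vh φ 0 1 i₀ ≠ 0) :
    ∃ (gι : N ≃ₐ[R] N) (io : D.E6 φ i₀ ≃ₐ[R] D.E6 φ i₀),
      ((perm φ gι 0 = 2 ∧ perm φ gι 1 = 3) ∨ (perm φ gι 0 = 3 ∧ perm φ gι 1 = 2)) ∧
      (∀ x : D.E6 φ i₀, gι (x : N) = ((io x : D.E6 φ i₀) : N)) ∧ ∀ x, io (io x) = x := by
  obtain ⟨σ, hσ⟩ := Pool.Agent.Helper50.KS.Quart.exists_pair_compl φ (i := 0) (j := 1) (k := 2) (l := 3) (by decide)
    (by decide) (by decide) (by decide) (by decide) (by decide)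
  obtain ⟨he, hv⟩ := D.swap_eh φ σ hσ
  set K := D.E6 φ i₀ with hK
  have hmem : ∀ x ∈ K, σ x ∈ K := by
    intro x hx
    have h1 : K.map σ.toAlgHom ≤ K := by
      rw [hK, E6, IntermediateField.adjoin_map, IntermediateField.adjoin_le_iff]
      rintro _ ⟨y, hy, rfl⟩
      rcases hy with rfl | rfl | hy
      · change σ (D.eh φ 0 1 0) ∈ _
        rw [he]
        exact D.mem_e6 φ i₀ 0
      · change σ (D.eh φ 0 1 1) ∈ _
        rw [he]
        exact D.mem_e6 φ i₀ 1
      · rw [Set.mem_singleton_iff] at hy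
        subst hy
        change σ (D.vh φ 0 1 i₀) ∈ _
        rw [hv]
        exact neg_mem (D.mem_v6 φ hi i₀)
    exact h1 ⟨x, hx, rfl⟩
  have hinv : ∀ x : K, σ (σ (x : N)) = x := by
    intro x
    have h1 : ((σ * σ).toAlgHom.comp K.val) = K.val := by
      refine IntermediateField.algHom_ext_of_eq_adjoin R hK ?_
      intro y hy
      rcases hy with rfl | rfl | hy
      · change σ (σ (D.eh φ 0 1 0)) = D.eh φ 0 1 0
        rw [he, he]
      · change σ (σ (D.eh φ 0 1 1)) = D.eh φ 0 1 1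
        rw [he, he]
      · rw [Set.mem_singleton_iff] at hy
        subst hy
        change σ (σ (D.vh φ 0 1 i₀)) = D.vh φ 0 1 i₀
        rw [hv, map_neg, hv, neg_neg]
    exact DFunLike.congr_fun h1 x
  let f : K →ₐ[R] K := AlgHom.codRestrict (σ.toAlgHom.comp K.val) K.toSubalgebra (fun x => hmem x x.2)
  have hf : ∀ x : K, ((f x : K) : N) = σ (x : N) := fun x => rfl
  have hff : ∀ x : K, f (f x) = x := by
    intro x
    apply Subtype.ext
    rw [hf, hf, hinv]
  refine ⟨σ, AlgEquiv.ofAlgHom f f (AlgHom.ext hff) (AlgHom.ext hff), hσ, ?_, ?_⟩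
  · intro x
    exact (hf x).symm
  · intro x
    exact hff x

end six

section qg

variable {k R F N : Type u} [Field k] [IsAlgClosed k] [CharZero k] [Field R] [CharZero R] [Field F] [Field N]
  [CharZero N] [Algebra k R] [Algebra k F] [Algebra k N] [Algebra R F] [Algebra R N] [Algebra F N]
  [IsScalarTower k R F] [IsScalarTower k R N] [IsScalarTower R F N] [Normal R N] [FiniteDimensional R N]
  (D : NQ k R F) (φ : Fin 4 ≃ (F →ₐ[R] N))

/-- The structure QG. -/
noncomputable def mkQ {i₀ : Fin 3} (hi : D.vh φ 0 1 i₀ ≠ 0) {s t : R} (hst : AlgebraicIndependent k ![s, t])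
    (hgen : IntermediateField.adjoin k (Set.range ![s, t]) = ⊤) (gι : N ≃ₐ[R] N)
    (io : D.E6 φ i₀ ≃ₐ[R] D.E6 φ i₀)
    (hgι : (perm φ gι 0 = 2 ∧ perm φ gι 1 = 3) ∨ (perm φ gι 0 = 3 ∧ perm φ gι 1 = 2))
    (hio : ∀ x : D.E6 φ i₀, gι (x : N) = ((io x : D.E6 φ i₀) : N)) (hioio : ∀ x, io (io x) = x) :
    QG k F N (D.E6 φ i₀) (N ≃ₐ[R] N) (io.restrictScalars k : D.E6 φ i₀ ≃ₐ[k] D.E6 φ i₀) where
  ρ := rsHom
  e := fun i => (φ i).restrictScalars k
  act := actHom φ
  hact := fun g i x => perm_spec φ g i x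
  trans := fun i j => perm_trans φ i j
  fixF := fun z h => (fix0 φ z).mp h
  s := algebraMap R N s
  t := algebraMap R N t
  ind := by
    have h1 := hst.map' (f := IsScalarTower.toAlgHom k R N) (algebraMap R N).injective
    convert h1 using 1
    funext i
    fin_cases i <;> rfl
  base := by
    intro z
    have hG : IsGalois R N := ⟨⟩
    have hrb : z ∈ Set.range (algebraMap R N) ↔
        z ∈ IntermediateField.adjoin k {algebraMap R N s, algebraMap R N t} := range_base (v := ![s, t]) hgen z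
    rw [← hrb]
    rw [IsGalois.mem_range_algebraMap_iff_fixed]
    rfl
  e6 := (D.E6 φ i₀).val.restrictScalars k
  fix6 := by
    intro z
    refine (D.fix6 φ hi z).trans ?_
    constructor
    · intro h
      exact ⟨⟨z, h⟩, rfl⟩
    · rintro ⟨x, rfl⟩
      exact x.2
  gι := gι
  hgι := hgι
  hι := hio
  ιι := hioio
  pair := fun _ hj => Or.inl (D.conj_pair φ hj)

end qg

end NQ

end Pool.Agent.NT28
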