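import Mathlib
import Pool.Agent.Helper28.NT.Gal3
import Pool.Agent.Helper40.NT.D
import Pool.Agent.Helper67.NT.T
import Pool.Agent.Helper26.VC.Main3
import Pool.Agent.Helper50.KS.Qd

/-!
# NT: the cubics over the field of the pair
-/

set_option linter.unusedSectionVars false

namespace Pool.Agent.NT28

open VC VF Function Polynomial Pool.Agent.Helper21.TO Pool.Agent.Helper15.GT Pool.Agent.Helper15.KP
open Pool.Agent.Helper50.KS (perm perm_spec perm_mul perm_trans exists_compl splits_of_normal range_base rsHom actHom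
  fix0)
open Pool.Agent.Helper83.PC (act)
open Pool.Agent.Helper83.KPA (cf)

universe u

section tower

variable {k R N : Type*} [Field k] [CommRing R] [CommRing N] [Algebra k R] [Algebra k N] [Algebra R N]
  [IsScalarTower k R N]

lemma qm_tower (Q : Fin 3 → Matrix (Fin 3) (Fin 3) k) (e : Fin 3 → R) (e' : Fin 3 → N)
    (h : ∀ a, e' a = algebraMap R N (e a)) : qm (ext N Q) e' = (qm (ext R Q) e).map (algebraMap R N) := by
  ext a b
  have h1 : ∀ l a b, ext N Q l a b = algebraMap R N (ext R Q l a b) := fun l a b =>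
    IsScalarTower.algebraMap_apply k R N _
  simp only [qm, Fin.sum_univ_three, Matrix.add_apply, Matrix.smul_apply, smul_eq_mul, h, h1, map_add, map_mul,
    Matrix.map_apply]

lemma adj_tower (Q : Fin 3 → Matrix (Fin 3) (Fin 3) k) (e : Fin 3 → R) (e' : Fin 3 → N)
    (h : ∀ a, e' a = algebraMap R N (e a)) (a b : Fin 3) :
    (qm (ext N Q) e').adjugate a b = algebraMap R N ((qm (ext R Q) e).adjugate a b) := by
  rw [qm_tower Q e e' h]
  have h1 := RingHom.map_adjugate (algebraMap R N) (qm (ext R Q) e)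
  rw [RingHom.mapMatrix_apply, RingHom.mapMatrix_apply] at h1
  rw [← h1]
  rfl

lemma dl_tower' (Q : Fin 3 → Matrix (Fin 3) (Fin 3) k) (e : Fin 3 → R) (e' : Fin 3 → N)
    (h : ∀ a, e' a = algebraMap R N (e a)) : dl (ext N Q) e' = algebraMap R N (dl (ext R Q) e) := by
  unfold dl
  rw [qm_tower Q e e' h, RingHom.map_det]
  rfl

end tower

section ce

variable {k : Type u} [Field k] {R N : Type u} [Field R] [Field N] [Algebra k R] [Algebra k N] [Algebra R N]
  [IsScalarTower k R N]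

lemma act_ce_tower (f : Fin 3 → MvPolynomial (Fin 3) k) (M : Matrix (Fin 3) (Fin 3) k) (e : Fin 3 → R)
    (e' : Fin 3 → N) (h : ∀ a, e' a = algebraMap R N (e a)) (j : Fin 10) :
    act (ce f e') (M.map (algebraMap k N)) j = algebraMap R N (act (ce f e) (M.map (algebraMap k R)) j) := by
  have h1 := congrFun (Pool.Agent.Helper83.PC.act_map (algebraMap R N) (ce f e) (M.map (algebraMap k R))) j
  rw [← h1]
  congr 1
  · funext i
    unfold ce
    rw [map_sum]
    refine Finset.sum_congr rfl fun l _ => ?_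
    rw [h, map_mul, IsScalarTower.algebraMap_apply k R N]
  · ext a b
    exact IsScalarTower.algebraMap_apply k R N _

end ce

namespace NQ

section cdb

variable {k R F N : Type u} [Field k] [IsAlgClosed k] [CharZero k] [Field R] [CharZero R] [Field F] [Field N]
  [CharZero N] [Algebra k R] [Algebra k F] [Algebra k N] [Algebra R F] [Algebra R N] [Algebra F N]
  [IsScalarTower k R F] [IsScalarTower k R N] [IsScalarTower R F N] [Normal R N] [FiniteDimensional R N]
  (D : NQ k R F) (φ : Fin 4 ≃ (F →ₐ[R] N))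

instance tow6 (i₀ : Fin 3) : IsScalarTower k (D.E6 φ i₀) N :=
  IsScalarTower.of_algebraMap_eq fun x => by
    rw [IsScalarTower.algebraMap_apply k R N, IsScalarTower.algebraMap_apply k R (D.E6 φ i₀)]
    rfl

/-- The first coordinate of the parameter. -/
noncomputable def x6 (i₀ : Fin 3) : D.E6 φ i₀ := ⟨D.eh φ 0 1 0, D.mem_e6 φ i₀ 0⟩

/-- The second coordinate of the parameter. -/
noncomputable def y6 (i₀ : Fin 3) : D.E6 φ i₀ := ⟨D.eh φ 0 1 1, D.mem_e6 φ i₀ 1⟩

/-- The vector. -/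
noncomputable def v6 {i₀ : Fin 3} (hi : D.vh φ 0 1 i₀ ≠ 0) (a : Fin 3) : D.E6 φ i₀ :=
  ⟨D.vh φ 0 1 a, D.mem_v6 φ hi a⟩

/-- The field of the discriminant curve. -/
noncomputable def K6 (i₀ : Fin 3) : IntermediateField k (D.E6 φ i₀) :=
  IntermediateField.adjoin k {D.x6 φ i₀, D.y6 φ i₀}

/-- The first coordinate. -/
noncomputable def xK (i₀ : Fin 3) : D.K6 φ i₀ := ⟨D.x6 φ i₀, IntermediateField.subset_adjoin k _ (Or.inl rfl)⟩

/-- The second coordinate. -/
noncomputable def yK (i₀ : Fin 3) : D.K6 φ i₀ := ⟨D.y6 φ i₀, IntermediateField.subset_adjoin k _ (Or.inr rfl)⟩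

lemma eh_eq (i₀ a : Fin 3) : D.eh φ 0 1 a = algebraMap (D.E6 φ i₀) N (![D.x6 φ i₀, D.y6 φ i₀, 1] a) := by
  fin_cases a
  · rfl
  · rfl
  · exact D.eh2 φ (by decide)

lemma e6_eq (i₀ a : Fin 3) : (![D.x6 φ i₀, D.y6 φ i₀, 1] : Fin 3 → D.E6 φ i₀) a =
    algebraMap (D.K6 φ i₀) (D.E6 φ i₀) (![D.xK φ i₀, D.yK φ i₀, 1] a) := by
  fin_cases a <;> rfl

lemma dl6 (i₀ : Fin 3) : dl (ext (D.E6 φ i₀) D.Q) ![D.x6 φ i₀, D.y6 φ i₀, 1] = 0 := by
  have h1 := dl_tower' (N := N) D.Q ![D.x6 φ i₀, D.y6 φ i₀, 1] (D.eh φ 0 1) (D.eh_eq φ i₀)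
  have h2 : dl (ext N D.Q) (D.eh φ 0 1) = 0 := D.eh_dl φ (by decide)
  rw [h2] at h1
  exact (map_eq_zero_iff _ (algebraMap (D.E6 φ i₀) N).injective).mp h1.symm

lemma dlK (i₀ : Fin 3) : dl (ext (D.K6 φ i₀) D.Q) ![D.xK φ i₀, D.yK φ i₀, 1] = 0 := by
  have h1 := dl_tower' (N := D.E6 φ i₀) D.Q ![D.xK φ i₀, D.yK φ i₀, 1] ![D.x6 φ i₀, D.y6 φ i₀, 1] (D.e6_eq φ i₀)
  rw [D.dl6 φ i₀] at h1
  exact (map_eq_zero_iff _ (algebraMap (D.K6 φ i₀) (D.E6 φ i₀)).injective).mp h1.symm

lemma adj6 {i₀ : Fin 3} (hi : D.vh φ 0 1 i₀ ≠ 0) (a b : Fin 3) : D.v6 φ hi a * D.v6 φ hi b =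
    - 4 * (qm (ext (D.E6 φ i₀) D.Q) ![D.x6 φ i₀, D.y6 φ i₀, 1]).adjugate a b := by
  apply (algebraMap (D.E6 φ i₀) N).injective
  have h1 := (D.vh_spec φ (show (0 : Fin 4) ≠ 1 by decide)).adj (by decide) a b
  have h2 := adj_tower (N := N) D.Q ![D.x6 φ i₀, D.y6 φ i₀, 1] (D.eh φ 0 1) (D.eh_eq φ i₀) a b
  rw [map_mul, map_mul, ← h2, map_neg, map_ofNat]
  exact h1

theorem gnr (i₀ : Fin 3) : ¬ IsAlgebraic k (D.x6 φ i₀) ∨ ¬ IsAlgebraic k (D.y6 φ i₀) := by
  by_contra hcon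
  push Not at hcon
  obtain ⟨hx, hy⟩ := hcon
  have key : ∀ z : D.E6 φ i₀, IsAlgebraic k z → ∃ a : k, algebraMap k (D.E6 φ i₀) a = z := fun z hz =>
    minpoly.mem_range_of_degree_eq_one k z
      (IsAlgClosed.degree_eq_one_of_irreducible k (minpoly.irreducible hz.isIntegral))
  obtain ⟨a, ha⟩ := key _ hx
  obtain ⟨b, hb⟩ := key _ hy
  let eR : Fin 3 → R := ![algebraMap k R a, algebraMap k R b, 1]
  have heq : ∀ i, D.eh φ 0 1 i = algebraMap R N (eR i) := by
    intro i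
    rw [D.eh_eq φ i₀]
    match i with
    | 0 =>
      change algebraMap (D.E6 φ i₀) N (D.x6 φ i₀) = algebraMap R N (algebraMap k R a)
      rw [← ha, ← IsScalarTower.algebraMap_apply, ← IsScalarTower.algebraMap_apply]
    | 1 =>
      change algebraMap (D.E6 φ i₀) N (D.y6 φ i₀) = algebraMap R N (algebraMap k R b)
      rw [← hb, ← IsScalarTower.algebraMap_apply, ← IsScalarTower.algebraMap_apply]
    | 2 =>
      change algebraMap (D.E6 φ i₀) N 1 = algebraMap R N 1
      rw [map_one, map_one]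
  refine D.nc eR ?_ ?_ ?_
  · intro h
    have h2 : (1 : R) = 0 := congrFun h 2
    exact one_ne_zero h2
  · have h1 := dl_tower' (N := N) D.Q eR (D.eh φ 0 1) heq
    have h2 : dl (ext N D.Q) (D.eh φ 0 1) = 0 := D.eh_dl φ (by decide)
    rw [h2] at h1
    exact (map_eq_zero_iff _ (algebraMap R N).injective).mp h1.symm
  · have h2 := D.eh_f φ 0 1
    have h3 : dot (D.eh φ 0 1) (D.pts φ).f = algebraMap R N (dot eR D.f) := by
      unfold dot
      rw [heq, heq, heq]
      change _ * algebraMap R N (D.f 0) + _ * algebraMap R N (D.f 1) + _ * algebraMap R N (D.f 2) = _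
      rw [map_add, map_add, map_mul, map_mul, map_mul]
    rw [h3] at h2
    exact (map_eq_zero_iff _ (algebraMap R N).injective).mp h2

theorem gnrK (i₀ : Fin 3) : ¬ IsAlgebraic k (D.xK φ i₀) ∨ ¬ IsAlgebraic k (D.yK φ i₀) := by
  rcases D.gnr φ i₀ with h | h
  · left
    intro h1
    exact h (h1.algHom (D.K6 φ i₀).val)
  · right
    intro h1
    exact h (h1.algHom (D.K6 φ i₀).val)

theorem genK (i₀ : Fin 3) : IntermediateField.adjoin k {D.xK φ i₀, D.yK φ i₀} = ⊤ :=
  Pool.Agent.Helper50.KS.gen_self (D.x6 φ i₀) (D.y6 φ i₀)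

theorem ffK (i₀ : Fin 3) : IsFunctionField k (D.K6 φ i₀) := by
  have hQ : Smo D.Q := by
    have h := D.smo k
    have h1 : ext k D.Q = D.Q := by
      funext i
      ext a b
      rfl
    rwa [h1] at h
  exact (d k (D.K6 φ i₀) D.Q hQ (D.xK φ i₀) (D.yK φ i₀) (D.gnrK φ i₀) (D.dlK φ i₀) (D.genK φ i₀)).1

/-- `K` is algebraic over the field generated by a transcendental element. -/
theorem algK (i₀ : Fin 3) : ∃ x : D.E6 φ i₀, ∀ z ∈ D.K6 φ i₀, IsAlgebraic (IntermediateField.adjoin k {x}) z := by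
  have key : ∀ u : D.K6 φ i₀, ¬ IsAlgebraic k u →
      ∀ z ∈ D.K6 φ i₀, IsAlgebraic (IntermediateField.adjoin k {(u : D.E6 φ i₀)}) z := by
    intro u hu z hz
    have hfd := (D.ffK φ i₀).finiteDimensional hu
    have h1 : IsAlgebraic (IntermediateField.adjoin k {u}) (⟨z, hz⟩ : D.K6 φ i₀) :=
      Algebra.IsAlgebraic.isAlgebraic _
    have h2 : (IntermediateField.adjoin k {u}).map (D.K6 φ i₀).val =
        IntermediateField.adjoin k {(u : D.E6 φ i₀)} := by
      rw [IntermediateField.adjoin_map, Set.image_singleton]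
      rfl
    let f : IntermediateField.adjoin k {u} →+* IntermediateField.adjoin k {(u : D.E6 φ i₀)} :=
      ((IntermediateField.equivMap (IntermediateField.adjoin k {u}) (D.K6 φ i₀).val).trans
        (IntermediateField.equivOfEq h2)).toAlgHom.toRingHom
    exact h1.ringHom_of_comp_eq f (D.K6 φ i₀).val.toRingHom f.injective rfl
  rcases D.gnrK φ i₀ with h | h
  · exact ⟨_, key _ h⟩
  · exact ⟨_, key _ h⟩

end cdb

end NQ

end Pool.Agent.NT28
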