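import Mathlib
import Pool.Agent.Helper28.NT.Gal4

/-!
# NT: the surface of pairs
-/

set_option linter.unusedSectionVars false

namespace Pool.Agent.NT28

open VC VF Function Polynomial Pool.Agent.Helper21.TO Pool.Agent.Helper15.GT Pool.Agent.Helper15.KP
open Pool.Agent.Helper50.KS (perm perm_spec perm_mul perm_trans exists_compl splits_of_normal range_base rsHom actHom
  fix0)
open Pool.Agent.Helper83.PC (act)
open Pool.Agent.Helper83.KPA (cf)

universe u

namespace NQ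

section cdb

variable {k R F N : Type u} [Field k] [IsAlgClosed k] [CharZero k] [Field R] [CharZero R] [Field F] [Field N]
  [CharZero N] [Algebra k R] [Algebra k F] [Algebra k N] [Algebra R F] [Algebra R N] [Algebra F N]
  [IsScalarTower k R F] [IsScalarTower k R N] [IsScalarTower R F N] [Normal R N] [FiniteDimensional R N]
  (D : NQ k R F) (φ : Fin 4 ≃ (F →ₐ[R] N))

/-- The coefficients of the cubic over the field of the discriminant curve. -/
noncomputable def cK (i₀ : Fin 3) (f : Fin 3 → MvPolynomial (Fin 3) k) (M : Matrix (Fin 3) (Fin 3) k) :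
    Fin 10 → D.K6 φ i₀ := act (ce f ![D.xK φ i₀, D.yK φ i₀, 1]) (M.map (algebraMap k (D.K6 φ i₀)))

lemma cK_coe (i₀ : Fin 3) (f : Fin 3 → MvPolynomial (Fin 3) k) (M : Matrix (Fin 3) (Fin 3) k) (j : Fin 10) :
    (D.cK φ i₀ f M j : D.E6 φ i₀) = act (ce f ![D.x6 φ i₀, D.y6 φ i₀, 1]) (M.map (algebraMap k (D.E6 φ i₀))) j :=
  (act_ce_tower (N := D.E6 φ i₀) f M ![D.xK φ i₀, D.yK φ i₀, 1] ![D.x6 φ i₀, D.y6 φ i₀, 1] (D.e6_eq φ i₀) j).symm

lemma cK_coeN (i₀ : Fin 3) (f : Fin 3 → MvPolynomial (Fin 3) k) (M : Matrix (Fin 3) (Fin 3) k) (j : Fin 10) :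
    ((D.cK φ i₀ f M j : D.E6 φ i₀) : N) = act (ce f (D.eh φ 0 1)) (M.map (algebraMap k N)) j := by
  rw [cK_coe]
  exact (act_ce_tower (N := N) f M ![D.x6 φ i₀, D.y6 φ i₀, 1] (D.eh φ 0 1) (D.eh_eq φ i₀) j).symm

/-- The square of the vector. -/
noncomputable def hK (i₀ : Fin 3) : D.K6 φ i₀ :=
  - 4 * (qm (ext (D.K6 φ i₀) D.Q) ![D.xK φ i₀, D.yK φ i₀, 1]).adjugate i₀ i₀

/-- The adjugate is defined over the field of the discriminant curve. -/
lemma adj_mem (i₀ a b : Fin 3) :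
    (qm (ext (D.E6 φ i₀) D.Q) ![D.x6 φ i₀, D.y6 φ i₀, 1]).adjugate a b ∈ D.K6 φ i₀ := by
  rw [adj_tower (N := D.E6 φ i₀) D.Q ![D.xK φ i₀, D.yK φ i₀, 1] ![D.x6 φ i₀, D.y6 φ i₀, 1] (D.e6_eq φ i₀)]
  exact SetLike.coe_mem _

lemma hK_coe (i₀ : Fin 3) : (D.hK φ i₀ : D.E6 φ i₀) =
    - 4 * (qm (ext (D.E6 φ i₀) D.Q) ![D.x6 φ i₀, D.y6 φ i₀, 1]).adjugate i₀ i₀ := by
  rw [adj_tower (N := D.E6 φ i₀) D.Q ![D.xK φ i₀, D.yK φ i₀, 1] ![D.x6 φ i₀, D.y6 φ i₀, 1] (D.e6_eq φ i₀)]
  rfl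

/-- The generators of the field of the pair. -/
lemma gen6 {i₀ : Fin 3} (hi : D.vh φ 0 1 i₀ ≠ 0) {s t : R}
    (hgen : IntermediateField.adjoin k (Set.range ![s, t]) = ⊤) :
    IntermediateField.adjoin k ((D.K6 φ i₀ : Set (D.E6 φ i₀)) ∪
      {D.v6 φ hi i₀, algebraMap R (D.E6 φ i₀) s, algebraMap R (D.E6 φ i₀) t}) = ⊤ := by
  rw [eq_top_iff]
  set K := IntermediateField.adjoin k ((D.K6 φ i₀ : Set (D.E6 φ i₀)) ∪
      {D.v6 φ hi i₀, algebraMap R (D.E6 φ i₀) s, algebraMap R (D.E6 φ i₀) t}) with hK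
  have hR : ∀ r : R, algebraMap R (D.E6 φ i₀) r ∈ K := by
    intro r
    have hr : r ∈ IntermediateField.adjoin k (Set.range ![s, t]) := by
      rw [hgen]
      exact IntermediateField.mem_top
    have h1 : (IntermediateField.adjoin k (Set.range ![s, t])).map (IsScalarTower.toAlgHom k R (D.E6 φ i₀)) ≤ K := by
      rw [IntermediateField.adjoin_map, IntermediateField.adjoin_le_iff]
      rintro _ ⟨_, ⟨i, rfl⟩, rfl⟩
      fin_cases i
      · exact IntermediateField.subset_adjoin k _ (Or.inr (by simp))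
      · exact IntermediateField.subset_adjoin k _ (Or.inr (by simp))
    exact h1 ⟨r, hr, rfl⟩
  let K' : IntermediateField R (D.E6 φ i₀) :=
    { K.toSubfield with
      algebraMap_mem' := hR }
  have hK' : K' = ⊤ := by
    have h2 : IntermediateField.adjoin R {D.x6 φ i₀, D.y6 φ i₀, D.v6 φ hi i₀} = ⊤ := by
      apply IntermediateField.lift_injective
      rw [IntermediateField.lift_adjoin, IntermediateField.lift_top, Set.image_insert_eq, Set.image_insert_eq,
        Set.image_singleton]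
      rfl
    rw [eq_top_iff, ← h2, IntermediateField.adjoin_le_iff]
    rintro y hy
    have hxK : D.x6 φ i₀ ∈ D.K6 φ i₀ := (D.xK φ i₀).2
    have hyK : D.y6 φ i₀ ∈ D.K6 φ i₀ := (D.yK φ i₀).2
    rcases hy with rfl | rfl | hy
    · exact IntermediateField.subset_adjoin k _ (Or.inl hxK)
    · exact IntermediateField.subset_adjoin k _ (Or.inl hyK)
    · rw [Set.mem_singleton_iff] at hy
      subst hy
      exact IntermediateField.subset_adjoin k _ (Or.inr (by simp))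
  intro x _
  have hx : x ∈ K' := by
    rw [hK']
    exact IntermediateField.mem_top
  exact hx

/-- The surface of pairs. -/
noncomputable def mkC {i₀ : Fin 3} (hi : D.vh φ 0 1 i₀ ≠ 0) {s t : R} (hst : AlgebraicIndependent k ![s, t])
    (hgen : IntermediateField.adjoin k (Set.range ![s, t]) = ⊤) (gι : N ≃ₐ[R] N)
    (io : D.E6 φ i₀ ≃ₐ[R] D.E6 φ i₀)
    (hgι : (perm φ gι 0 = 2 ∧ perm φ gι 1 = 3) ∨ (perm φ gι 0 = 3 ∧ perm φ gι 1 = 2))
    (hio : ∀ x : D.E6 φ i₀, gι (x : N) = ((io x : D.E6 φ i₀) : N))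
    (f : Fin 3 → MvPolynomial (Fin 3) k) (M : Matrix (Fin 3) (Fin 3) k)
    (hc0 : D.cK φ i₀ f M 0 ≠ 0) (hb : Dbin (D.cK φ i₀ f M) ≠ 0) (hd : Dsc (D.cK φ i₀ f M) ≠ 0)
    (hcub : cub (fun j => act (ce f (D.eh φ 0 1)) (M.map (algebraMap k N)) j) (algebraMap R N s)
      (algebraMap R N t) = 0) : CDB k (D.E6 φ i₀) where
  K := D.K6 φ i₀
  T := D.v6 φ hi i₀
  s := algebraMap R (D.E6 φ i₀) s
  t := algebraMap R (D.E6 φ i₀) t
  ι := io.restrictScalars k
  h := D.hK φ i₀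
  c := D.cK φ i₀ f M
  hT := by
    rw [hK_coe, pow_two]
    exact D.adj6 φ hi i₀ i₀
  T0 := by
    intro h
    apply hi
    have h1 := congrArg (fun x : D.E6 φ i₀ => (x : N)) h
    exact h1
  ιK := by
    have he := (D.swap_eh φ gι hgι).1
    have h1 : (((io.restrictScalars k : D.E6 φ i₀ ≃ₐ[k] D.E6 φ i₀) : D.E6 φ i₀ →ₐ[k] D.E6 φ i₀).comp
        (D.K6 φ i₀).val) = (D.K6 φ i₀).val := by
      refine IntermediateField.algHom_ext_of_eq_adjoin k rfl ?_
      intro y hy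
      rcases hy with rfl | hy
      · change io (D.x6 φ i₀) = D.x6 φ i₀
        apply Subtype.ext
        rw [← hio]
        exact he 0
      · rw [Set.mem_singleton_iff] at hy
        subst hy
        change io (D.y6 φ i₀) = D.y6 φ i₀
        apply Subtype.ext
        rw [← hio]
        exact he 1
    intro z
    exact DFunLike.congr_fun h1 z
  ιT := by
    have he := (D.swap_eh φ gι hgι).2
    change io (D.v6 φ hi i₀) = - D.v6 φ hi i₀
    apply Subtype.ext
    rw [← hio]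
    exact he i₀
  ιs := io.commutes s
  ιt := io.commutes t
  tr := by
    obtain ⟨x, hx⟩ := D.algK φ i₀
    have hst' : AlgebraicIndependent k ![algebraMap R (D.E6 φ i₀) s, algebraMap R (D.E6 φ i₀) t] := by
      have h1 := hst.map' (f := IsScalarTower.toAlgHom k R (D.E6 φ i₀)) (algebraMap R (D.E6 φ i₀)).injective
      convert h1 using 1
      funext i
      fin_cases i <;> rfl
    refine NT28.t k (D.E6 φ i₀) (D.K6 φ i₀) x hx _ _ hst' (D.cK φ i₀ f M) ?_ hc0 hb hd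
    have hc : ∀ j, algebraMap (D.E6 φ i₀) N (D.cK φ i₀ f M j : D.E6 φ i₀) =
        act (ce f (D.eh φ 0 1)) (M.map (algebraMap k N)) j := D.cK_coeN φ i₀ f M
    apply (algebraMap (D.E6 φ i₀) N).injective
    rw [map_zero, ← hcub]
    unfold cub
    simp only [map_add, map_mul, map_pow, hc, ← IsScalarTower.algebraMap_apply]
  gen := D.gen6 φ hi hgen
  eqn := by
    have hc : ∀ j, algebraMap (D.E6 φ i₀) N (D.cK φ i₀ f M j : D.E6 φ i₀) =
        act (ce f (D.eh φ 0 1)) (M.map (algebraMap k N)) j := D.cK_coeN φ i₀ f M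
    apply (algebraMap (D.E6 φ i₀) N).injective
    rw [map_zero, ← hcub]
    unfold cub
    simp only [map_add, map_mul, map_pow, hc, ← IsScalarTower.algebraMap_apply]
  c0 := hc0
  bin := hb
  dsc := hd

end cdb

end NQ

end Pool.Agent.NT28
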