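import Mathlib
import Pool.Agent.Helper28.NT.Gal5
import Pool.Agent.Helper40.NT.St
import Pool.Agent.Helper40.NT.L1
import Pool.Agent.Helper40.NT.L2
import Pool.Agent.Helper17.NT.L3
import Pool.Agent.Helper17.NT.G
import Pool.Agent.Helper83.KN.C
import Pool.Agent.Helper9.NT.Nc

/-!
# NT: block F
-/

set_option linter.unusedSectionVars false

namespace Pool.Agent.NT28

open VC VF Function Polynomial Pool.Agent.Helper21.TO Pool.Agent.Helper15.GT Pool.Agent.Helper15.KP
open Pool.Agent.Helper50.KS (perm perm_spec perm_mul perm_trans exists_compl splits_of_normal range_base rsHom actHom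
  fix0 exists_N gen_self)
open Pool.Agent.Helper83.PC (act)
open Pool.Agent.Helper83.KPA (cf)

universe u

set_option maxRecDepth 20000 in
theorem fout_of {k R F : Type u} [Field k] [IsAlgClosed k] [CharZero k] [Field R] [CharZero R] [Field F]
    [Algebra k R] [Algebra k F] [Algebra R F] [IsScalarTower k R F] (Dn : Net k F) (D : NQ k R F)
    (hQ : D.Q = Dn.Q) (hz : D.z = Dn.z) (hw : D.w = Dn.w) (s t : R) (hs : algebraMap R F s = Dn.s)
    (ht : algebraMap R F t = Dn.t) (hf : ∀ j, D.f j = MvPolynomial.aeval ![s, t, 1] (Dn.f j))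
    (hst : AlgebraicIndependent k ![s, t]) (hgen : IntermediateField.adjoin k {s, t} = ⊤) :
    ∃ (N F6 G : Type u) (_ : Field N) (_ : CharZero N) (_ : Algebra k N) (_ : Field F6) (_ : Algebra k F6)
      (_ : Group G) (_ : Fintype G), Nonempty (FOut2 Dn N F6 G) := by
  have hfd : FiniteDimensional R F := D.fd
  obtain ⟨N, iN, ikN, iRN, iFN, hs1, hs2, hnor, hfdN⟩ := exists_N k R F
  have hN0 : CharZero N := charZero_of_injective_algebraMap (algebraMap k N).injective
  obtain ⟨φ⟩ := D.exists_enum N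
  obtain ⟨i₀, hi⟩ := Function.ne_iff.mp (D.vh_ne φ (show (0 : Fin 4) ≠ 1 by decide))
  rw [Pi.zero_apply] at hi
  have hdK : dl (ext (D.K6 φ i₀) Dn.Q) ![D.xK φ i₀, D.yK φ i₀, 1] = 0 := by
    rw [← hQ]
    exact D.dlK φ i₀
  obtain ⟨M, hM, hMc⟩ := c_of g k (D.K6 φ i₀) Dn.Q Dn.smo (D.xK φ i₀) (D.yK φ i₀) (D.gnrK φ i₀) hdK Dn.f Dn.hom
    Dn.sm Dn.jn
  obtain ⟨hc0, hb, hd, hj⟩ := hMc (D.cK φ i₀ Dn.f M) rfl
  obtain ⟨s1, t1, hst1, hgen1, hcub⟩ := st_cub hst hgen M hM
  have hgen1' : IntermediateField.adjoin k (Set.range ![s1, t1]) = ⊤ := by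
    rw [← hgen1]
    congr 1
    rw [Matrix.range_cons, Matrix.range_cons, Matrix.range_empty, Set.union_empty, Set.singleton_union]
  obtain ⟨gι, io, hgι, hio, hioio⟩ := D.exists_io φ hi
  have hcub1 : cub (fun j => act (ce Dn.f (D.eh φ 0 1)) (M.map (algebraMap k N)) j) (algebraMap R N s1)
      (algebraMap R N t1) = 0 := by
    refine hcub Dn.f Dn.hom N (D.eh φ 0 1) ?_
    rw [← hf, ← hf, ← hf]
    exact D.eh_f φ 0 1
  have hPp : ∀ i, D.pt φ i = ![φ i Dn.z, φ i Dn.w, 1] := by
    intro i
    rw [← hz, ← hw]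
    rfl
  refine ⟨N, D.E6 φ i₀, N ≃ₐ[R] N, inferInstance, hN0, inferInstance, inferInstance, inferInstance, inferInstance,
    inferInstance, ⟨?_⟩⟩
  exact {
    C := D.mkC φ hi hst1 hgen1' gι io hgι hio Dn.f M hc0 hb hd hcub1
    q := D.mkQ φ hi hst1 hgen1' gι io hgι hio hioio
    x := D.x6 φ i₀
    y := D.y6 φ i₀
    hK := rfl
    gnr := D.gnr φ i₀
    hdl := by
      rw [← hQ]
      exact D.dl6 φ i₀
    v := D.v6 φ hi
    i := i₀
    hT := rfl
    hadj := by
      rw [← hQ]
      exact D.adj6 φ hi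
    hιv := by
      have he := (D.swap_eh φ gι hgι).2
      intro a
      change io (D.v6 φ hi a) = - D.v6 φ hi a
      apply Subtype.ext
      rw [← hio]
      exact he a
    vKt := by
      intro a
      have h1 := D.adj6 φ hi a i₀
      have h2 := D.adj_mem φ i₀ a i₀
      have h3 : D.v6 φ hi i₀ ≠ 0 := by
        intro h
        apply hi
        exact congrArg (fun x : D.E6 φ i₀ => (x : N)) h
      have h4 : D.v6 φ hi a = - 4 * (qm (ext (D.E6 φ i₀) D.Q) ![D.x6 φ i₀, D.y6 φ i₀, 1]).adjugate a i₀ /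
          D.v6 φ hi i₀ := by
        rw [eq_div_iff h3, h1]
      rw [h4]
      refine div_mem (mul_mem (neg_mem (ofNat_mem _ 4)) ?_) ?_
      · exact IntermediateField.subset_adjoin k _ (Or.inl h2)
      · exact IntermediateField.subset_adjoin k _ (Or.inr rfl)
    M := M
    hM := hM
    hc := D.cK_coe φ i₀ Dn.f M
    hj := hj
    P := D.pts φ
    hPQ := hQ
    hPp := hPp
    hPf := by
      intro i l
      change algebraMap R N (D.f l) = MvPolynomial.aeval ![φ i Dn.s, φ i Dn.t, 1] (Dn.f l)
      have e1 : φ i Dn.s = algebraMap R N s := by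
        rw [← hs]
        exact (φ i).commutes s
      have e2 : φ i Dn.t = algebraMap R N t := by
        rw [← ht]
        exact (φ i).commutes t
      have hvec : (fun j => algebraMap R N ((![s, t, 1] : Fin 3 → R) j)) =
          ![algebraMap R N s, algebraMap R N t, 1] := by
        funext j
        match j with
        | 0 => rfl
        | 1 => rfl
        | 2 => exact map_one _
      rw [hf, e1, e2, ← MvPolynomial.aeval_algebraMap_apply, ← hvec]
      rfl
    eh := D.eh φ
    eh2 := fun i j h => D.eh2 φ h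
    ehs := fun i j h a => D.eh_scale φ h a
    heh := fun g i j a _ => D.aut_eh φ g i j a
    vh := D.vh φ
    hV := fun i j h => D.vh_spec φ h
    hvh := fun g i j a h => D.aut_vh φ g h a
    h6x := rfl
    h6y := rfl
    h6v := fun a => rfl
    hCj := fun j hj => D.conj_pair φ hj }

/-- BLOCK F. -/
theorem f2 : StmtF2.{u} := by
  intro k F _ _ _ _ _ Dn
  let R := IntermediateField.adjoin k {Dn.s, Dn.t}
  have hsR : Dn.s ∈ R := IntermediateField.subset_adjoin k _ (Or.inl rfl)
  have htR : Dn.t ∈ R := IntermediateField.subset_adjoin k _ (Or.inr rfl)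
  let s0 : R := ⟨Dn.s, hsR⟩
  let t0 : R := ⟨Dn.t, htR⟩
  have hR0 : CharZero R := charZero_of_injective_algebraMap (algebraMap k R).injective
  have hgen0 : IntermediateField.adjoin k {s0, t0} = ⊤ := gen_self Dn.s Dn.t
  have hvec : (fun i => algebraMap R F ((![s0, t0, 1] : Fin 3 → R) i)) = ![Dn.s, Dn.t, 1] := by
    funext i
    match i with
    | 0 => rfl
    | 1 => rfl
    | 2 => rfl
  have hvec2 : (fun i => R.val ((![s0, t0] : Fin 2 → R) i)) = ![Dn.s, Dn.t] := by
    funext i
    match i with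
    | 0 => rfl
    | 1 => rfl
  have hst0 : AlgebraicIndependent k ![s0, t0] := by
    refine AlgebraicIndependent.of_comp (R.val) ?_
    have hst := Dn.st
    rw [← hvec2] at hst
    exact hst
  have hv : ∀ P : MvPolynomial (Fin 3) k, algebraMap R F (MvPolynomial.aeval ![s0, t0, 1] P) =
      MvPolynomial.aeval ![Dn.s, Dn.t, 1] P := by
    intro P
    rw [← MvPolynomial.aeval_algebraMap_apply, ← hvec]
    rfl
  let D : NQ k R F := {
    Q := Dn.Q
    smo := fun L _ _ => l1 k L Dn.Q Dn.smo
    l3 := fun L _ _ e h2 h0 hd => l3 k L Dn.Q Dn.smo e h2 h0 hd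
    f := fun j => MvPolynomial.aeval ![s0, t0, 1] (Dn.f j)
    f0 := by
      intro h
      have h1 : MvPolynomial.aeval ![s0, t0, 1] (Dn.f 0) = 0 := congrFun h 0
      have h2 := form_zero9 hst0 (Dn.hom 0) h1
      have h3 := Dn.ind ![1, 0, 0] (by
        simp only [fe, Fin.sum_univ_three, Matrix.cons_val_zero, Matrix.cons_val_one, Matrix.cons_val, h2, mul_zero,
          map_zero, zero_mul, add_zero])
      exact one_ne_zero (congrFun h3 0)
    z := Dn.z
    w := Dn.w
    eqn := by
      intro i j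
      rw [hv, hv]
      exact Dn.eqn i j
    gen := by
      apply IntermediateField.restrictScalars_injective k
      rw [IntermediateField.adjoin_adjoin_left, IntermediateField.restrictScalars_top, ← Dn.gen]
      have e : ({Dn.s, Dn.t} ∪ {Dn.z, Dn.w} : Set F) = {Dn.s, Dn.t, Dn.z, Dn.w} := by
        rw [Set.insert_union, Set.singleton_union]
      rw [e]
    deg := Dn.deg
    nc := by
      intro e he hd h
      refine nc l2 Dn.smo Dn.hom Dn.ind hst0 (e := e) (fun i => ?_) he hd ?_
      · rw [hgen0]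
        exact IntermediateField.mem_top
      · rw [Fin.sum_univ_three]
        exact h }
  exact fout_of Dn D rfl rfl rfl s0 t0 rfl rfl (fun _ => rfl) hst0 hgen0

end Pool.Agent.NT28
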