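import Mathlib
import Pool.Agent.Helper28.NT.Defs4

/-!
# NT: the hypotheses of the theorem in terms of polynomials
-/

set_option linter.unusedSectionVars false

namespace Pool.Agent.NT28

open Pool.Agent.Helper83.KPA (cf)

universe u

section jac

variable {k : Type u} [Field k]

/-- The discriminant of the net as a polynomial. -/
noncomputable def dp (Q : Fin 3 → Matrix (Fin 3) (Fin 3) k) : MvPolynomial (Fin 3) k :=
  (∑ i, (MvPolynomial.X i : MvPolynomial (Fin 3) k) • (Q i).map MvPolynomial.C).det

lemma eval_pderiv_dp (Q : Fin 3 → Matrix (Fin 3) (Fin 3) k) (e : Fin 3 → k)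
    (i : Fin 3) : MvPolynomial.eval e (MvPolynomial.pderiv i (dp Q)) = gr Q e i := by
  unfold dp gr qm
  rw [Matrix.det_fin_three, Matrix.adjugate_fin_three, Matrix.trace_fin_three]
  fin_cases i <;>
  · simp only [Matrix.mul_apply, Fin.sum_univ_three, Matrix.add_apply, Matrix.smul_apply, Matrix.map_apply, smul_eq_mul,
      map_add, map_sub, Derivation.leibniz, MvPolynomial.pderiv_X, MvPolynomial.pderiv_C, map_mul,
      MvPolynomial.eval_X, MvPolynomial.eval_C, Matrix.of_apply, Matrix.cons_val', Matrix.cons_val_zero,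
      Matrix.cons_val_one, Matrix.cons_val, Pi.single_apply, mul_zero, zero_add, add_zero, map_zero]
    simp
    ring

lemma smo_of {Q : Fin 3 → Matrix (Fin 3) (Fin 3) k} (hs : ∀ i, (Q i).IsSymm) (h : SmoC (dp Q)) : Smo Q := by
  refine ⟨fun i => hs i, fun e he hd => ?_⟩
  by_contra hcon
  push Not at hcon
  apply he
  apply h
  intro i
  rw [eval_pderiv_dp]
  exact hcon i

lemma fe_ind {f : Fin 3 → MvPolynomial (Fin 3) k} (h : LinearIndependent k f) (e : Fin 3 → k) (he : fe f e = 0) :
    e = 0 := by
  have h1 := Fintype.linearIndependent_iff.mp h e (by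
    unfold fe at he
    rw [← he]
    refine Finset.sum_congr rfl fun i _ => ?_
    rw [MvPolynomial.smul_eq_C_mul])
  funext i
  exact h1 i

lemma cf_fe (f : Fin 3 → MvPolynomial (Fin 3) k) (e : Fin 3 → k) : cf (fe f e) = ce f e := by
  funext j
  unfold cf fe ce
  rw [MvPolynomial.coeff_sum]
  refine Finset.sum_congr rfl fun i _ => ?_
  rw [MvPolynomial.coeff_C_mul]
  rfl

lemma qv_mulVec {F : Type*} [CommRing F] (A : Matrix (Fin 3) (Fin 3) F) (x : Fin 3 → F) :
    qv A x = dotProduct x (A.mulVec x) := by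
  simp only [qv, dotProduct, Matrix.mulVec, Fin.sum_univ_three]
  ring

end jac

end Pool.Agent.NT28
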