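import Mathlib
import Pool.Agent.Helper28.NT.Jac
import Pool.Agent.Helper83.KPA.Smo

/-!
# NT: smooth plane cubics with the same invariant are projectively equivalent
-/

set_option linter.unusedSectionVars false

namespace Pool.Agent.NT28

open Pool.Agent.Helper15.KP (PS PT Dsc)
open Pool.Agent.Helper83.PC (act act_mul act_map act_smul pull dcub mcub wei cub_wei cub_act)
open Pool.Agent.Helper83.KPA

universe u

section wei

variable {k : Type u} [Field k]

lemma PS_wei (A B : k) : PS (wei A B) = 48 * A := by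
  have h0 : wei A B 0 = -1 := rfl
  have h1 : wei A B 1 = 0 := rfl
  have h2 : wei A B 2 = 0 := rfl
  have h3 : wei A B 3 = 0 := rfl
  have h4 : wei A B 4 = 0 := rfl
  have h5 : wei A B 5 = -A := rfl
  have h6 : wei A B 6 = 0 := rfl
  have h7 : wei A B 7 = 1 := rfl
  have h8 : wei A B 8 = 0 := rfl
  have h9 : wei A B 9 = -B := rfl
  unfold PS
  rw [h0, h1, h2, h3, h4, h5, h6, h7, h8, h9]
  ring

lemma PT_wei (A B : k) : PT (wei A B) = 864 * B := by
  have h0 : wei A B 0 = -1 := rfl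
  have h1 : wei A B 1 = 0 := rfl
  have h2 : wei A B 2 = 0 := rfl
  have h3 : wei A B 3 = 0 := rfl
  have h4 : wei A B 4 = 0 := rfl
  have h5 : wei A B 5 = -A := rfl
  have h6 : wei A B 6 = 0 := rfl
  have h7 : wei A B 7 = 1 := rfl
  have h8 : wei A B 8 = 0 := rfl
  have h9 : wei A B 9 = -B := rfl
  unfold PT
  rw [h0, h1, h2, h3, h4, h5, h6, h7, h8, h9]
  ring

end wei

variable {k : Type u} [Field k] [IsAlgClosed k] [CharZero k]

lemma PS_act' (c : Fin 10 → k) (N : Matrix (Fin 3) (Fin 3) k) : PS (act c N) = N.det ^ 4 * PS c :=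
  PS_act (k := k) c N

lemma PT_act' (c : Fin 10 → k) (N : Matrix (Fin 3) (Fin 3) k) : PT (act c N) = N.det ^ 6 * PT c :=
  PT_act (k := k) c N

/-- The normal form of Weierstrass. -/
theorem exists_wei (c : Fin 10 → k) (h : ∀ p : Fin 3 → k, (∀ q, dcub c p q = 0) → p = 0) :
    ∃ (N : Matrix (Fin 3) (Fin 3) k) (A B : k), N.det ≠ 0 ∧ act c N = wei A B ∧ (A ≠ 0 ∨ B ≠ 0) := by
  rcases flex_form c with ⟨p, hp, h1⟩ | ⟨N, hN, h1, h3, h4, h6, h0, h7⟩
  · exact absurd (h p h1) hp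
  obtain ⟨d, hd⟩ : ∃ d, d = act c N := ⟨_, rfl⟩
  rw [← hd] at h1 h3 h4 h6 h0 h7
  obtain ⟨α, hα⟩ := IsAlgClosed.exists_pow_nat_eq (-1 / d 0) (n := 3) (by norm_num)
  have hα' : d 0 * α ^ 3 = -1 := by
    rw [hα]
    field_simp
  have hα0 : α ≠ 0 := by
    rintro rfl
    rw [zero_pow three_ne_zero, mul_zero] at hα'
    norm_num at hα'
  obtain ⟨γ, hγ⟩ : ∃ γ, γ = (d 7)⁻¹ := ⟨_, rfl⟩
  have hγ' : d 7 * γ = 1 := by
    rw [hγ]
    exact mul_inv_cancel₀ h7
  have hγ0 : γ ≠ 0 := by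
    rintro rfl
    rw [mul_zero] at hγ'
    exact zero_ne_one hγ'
  obtain ⟨u, hu⟩ : ∃ u, u = -d 2 * γ / (3 * d 0) := ⟨_, rfl⟩
  have hu' : 3 * d 0 * u + d 2 * γ = 0 := by
    rw [hu]
    field_simp
    ring
  obtain ⟨v, hv⟩ : ∃ v, v = -d 8 * γ / (2 * d 7) := ⟨_, rfl⟩
  have hv' : 2 * d 7 * v + d 8 * γ = 0 := by
    rw [hv]
    field_simp
    ring
  let M : Matrix (Fin 3) (Fin 3) k := !![α, 0, u; 0, 1, v; 0, 0, γ]
  have hM : M.det = α * γ := by
    rw [Matrix.det_fin_three]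
    simp [M]
  have hM0 : M.det ≠ 0 := by
    rw [hM]
    exact mul_ne_zero hα0 hγ0
  obtain ⟨A, hA⟩ : ∃ A, A = -act d M 5 := ⟨_, rfl⟩
  obtain ⟨B, hB⟩ : ∃ B, B = -act d M 9 := ⟨_, rfl⟩
  have key : act c (N * M) = wei A B := by
    rw [act_mul, ← hd]
    have a0 : act d M 0 = -1 := by
      simp [act, pull, M, Pool.Agent.Helper83.PC.cub]
      linear_combination hα'
    have a1 : act d M 1 = 0 := by
      simp [act, pull, M, dcub, h1]
    have a2 : act d M 2 = 0 := by
      simp [act, pull, M, dcub]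
      rw [h1] 
      linear_combination α ^ 2 * hu'
    have a3 : act d M 3 = 0 := by
      simp [act, pull, M, dcub]
      rw [h3]
      simp
    have a4 : act d M 4 = 0 := by
      simp [act, pull, M, mcub]
      rw [h1, h3, h4]
      ring
    have a6 : act d M 6 = 0 := by
      simp [act, pull, M, Pool.Agent.Helper83.PC.cub]
      exact h6
    have a7 : act d M 7 = 1 := by
      simp [act, pull, M, dcub]
      rw [h3, h6]
      linear_combination hγ'
    have a8 : act d M 8 = 0 := by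
      simp [act, pull, M, dcub]
      rw [h1, h3, h4, h6]
      linear_combination γ * hv'
    funext j
    fin_cases j
    · exact a0
    · exact a1
    · exact a2
    · exact a3
    · exact a4
    · show act d M 5 = -A
      rw [hA, neg_neg]
    · exact a6
    · exact a7
    · exact a8
    · show act d M 9 = -B
      rw [hB, neg_neg]
  refine ⟨N * M, A, B, ?_, key, ?_⟩
  · rw [Matrix.det_mul]
    exact mul_ne_zero hN hM0
  · by_contra hcon
    push Not at hcon
    obtain ⟨hA0, hB0⟩ := hcon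
    obtain ⟨p, hp, hp2⟩ := sing_act (c := c) (N := N * M) (x := ![0, 0, 1]) (by
      rw [Matrix.det_mul]
      exact mul_ne_zero hN hM0) (by
      intro h
      have := congrFun h 2
      simp at this) (by
      intro y
      rw [key, hA0, hB0]
      simp [dcub, wei])
    exact hp (h p hp2)

/-- Two smooth cubics with the same invariant. -/
theorem exists_equiv {c c' : Fin 10 → k} (h : ∀ p : Fin 3 → k, (∀ q, dcub c p q = 0) → p = 0)
    (h' : ∀ p : Fin 3 → k, (∀ q, dcub c' p q = 0) → p = 0)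
    (hj : PS c ^ 3 * PT c' ^ 2 = PS c' ^ 3 * PT c ^ 2) :
    ∃ (M : Matrix (Fin 3) (Fin 3) k) (t : k), M.det ≠ 0 ∧ t ≠ 0 ∧ ∀ x : Fin 3 → k,
      Pool.Agent.Helper83.PC.cub c (M.mulVec x 0) (M.mulVec x 1) (M.mulVec x 2) =
        t * Pool.Agent.Helper83.PC.cub c' (x 0) (x 1) (x 2) := by
  obtain ⟨N, A, B, hN, hc, hAB⟩ := exists_wei c h
  obtain ⟨N', A', B', hN', hc', hAB'⟩ := exists_wei c' h'
  have e1 : N.det ^ 4 * PS c = 48 * A := by
    rw [← PS_act', hc, PS_wei]
  have e2 : N.det ^ 6 * PT c = 864 * B := by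
    rw [← PT_act', hc, PT_wei]
  have e1' : N'.det ^ 4 * PS c' = 48 * A' := by
    rw [← PS_act', hc', PS_wei]
  have e2' : N'.det ^ 6 * PT c' = 864 * B' := by
    rw [← PT_act', hc', PT_wei]
  have hj2 : A ^ 3 * B' ^ 2 = A' ^ 3 * B ^ 2 := by
    have e3 : (48 * A) ^ 3 * (864 * B') ^ 2 = (48 * A') ^ 3 * (864 * B) ^ 2 := by
      rw [← e1, ← e2, ← e1', ← e2']
      linear_combination N.det ^ 12 * N'.det ^ 12 * hj
    have e4 : ((48 : k) ^ 3 * 864 ^ 2) ≠ 0 := by norm_num
    apply mul_left_cancel₀ e4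
    linear_combination e3
  obtain ⟨w, hw, hwA, hwB⟩ : ∃ w : k, w ≠ 0 ∧ A = w ^ 4 * A' ∧ B = w ^ 6 * B' := by
    by_cases hA : A = 0
    · have hB : B ≠ 0 := hAB.resolve_left (not_not.mpr hA)
      have hA' : A' = 0 := by
        rw [hA, zero_pow three_ne_zero, zero_mul] at hj2
        exact pow_eq_zero_iff three_ne_zero |>.mp ((mul_eq_zero.mp hj2.symm).resolve_right (pow_ne_zero _ hB))
      have hB' : B' ≠ 0 := hAB'.resolve_left (not_not.mpr hA')
      obtain ⟨w, hw⟩ := IsAlgClosed.exists_pow_nat_eq (B / B') (n := 6) (by norm_num)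
      refine ⟨w, ?_, ?_, ?_⟩
      · rintro rfl
        rw [zero_pow (by norm_num)] at hw
        exact (div_ne_zero hB hB') hw.symm
      · rw [hA, hA', mul_zero]
      · rw [hw, div_mul_cancel₀ _ hB']
    · have hA' : A' ≠ 0 := by
        intro h0
        rw [h0, zero_pow three_ne_zero, zero_mul] at hj2
        have hB' : B' ≠ 0 := hAB'.resolve_left (not_not.mpr h0)
        exact (mul_ne_zero (pow_ne_zero _ hA) (pow_ne_zero _ hB')) hj2
      obtain ⟨w, hw⟩ := IsAlgClosed.exists_pow_nat_eq (A / A') (n := 4) (by norm_num)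
      have hwA : A = w ^ 4 * A' := by rw [hw, div_mul_cancel₀ _ hA']
      have hw0 : w ≠ 0 := by
        rintro rfl
        rw [zero_pow (by norm_num), zero_mul] at hwA
        exact hA hwA
      have h2 : (w ^ 6 * B') ^ 2 = B ^ 2 := by
        apply mul_left_cancel₀ (pow_ne_zero 3 hA')
        rw [hwA] at hj2
        linear_combination hj2
      rcases sq_eq_sq_iff_eq_or_eq_neg.mp h2 with h3 | h3
      · exact ⟨w, hw0, hwA, h3.symm⟩
      · obtain ⟨i, hi⟩ := IsAlgClosed.exists_pow_nat_eq (-1 : k) (n := 2) (by norm_num)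
        refine ⟨i * w, ?_, ?_, ?_⟩
        · refine mul_ne_zero ?_ hw0
          rintro rfl
          norm_num at hi
        · rw [mul_pow, show i ^ 4 = (i ^ 2) ^ 2 by ring, hi]
          rw [hwA]
          ring
        · rw [mul_pow, show i ^ 6 = (i ^ 2) ^ 3 by ring, hi]
          linear_combination h3
  have hu : IsUnit N'.det := isUnit_iff_ne_zero.mpr hN'
  have eN : ∀ (c : Fin 10 → k) (N : Matrix (Fin 3) (Fin 3) k) (x : Fin 3 → k),
      Pool.Agent.Helper83.PC.cub (act c N) (x 0) (x 1) (x 2) =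
        Pool.Agent.Helper83.PC.cub c (N.mulVec x 0) (N.mulVec x 1) (N.mulVec x 2) := by
    intro c N x
    rw [cub_act]
    simp only [Matrix.mulVec, dotProduct, Fin.sum_univ_three]
  have eD : ∀ x : Fin 3 → k, Pool.Agent.Helper83.PC.cub (wei A B) (w ^ 2 * x 0) (w ^ 3 * x 1) (x 2) =
      w ^ 6 * Pool.Agent.Helper83.PC.cub (wei A' B') (x 0) (x 1) (x 2) := by
    intro x
    rw [cub_wei, cub_wei, hwA, hwB]
    ring
  refine ⟨N * Matrix.diagonal ![w ^ 2, w ^ 3, 1] * N'⁻¹, w ^ 6, ?_, pow_ne_zero _ hw, fun x => ?_⟩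
  · rw [Matrix.det_mul, Matrix.det_mul, Matrix.det_diagonal, Fin.prod_univ_three, Matrix.det_nonsing_inv]
    refine mul_ne_zero (mul_ne_zero hN ?_) ?_
    · simp [hw]
    · rw [Ring.inverse_eq_inv']
      exact inv_ne_zero hN'
  · obtain ⟨y, hy⟩ : ∃ y, y = N'⁻¹.mulVec x := ⟨_, rfl⟩
    have hx : x = N'.mulVec y := by
      rw [hy, Matrix.mulVec_mulVec, Matrix.mul_nonsing_inv _ hu, Matrix.one_mulVec]
    have hM : (N * Matrix.diagonal ![w ^ 2, w ^ 3, 1] * N'⁻¹).mulVec x =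
        N.mulVec ![w ^ 2 * y 0, w ^ 3 * y 1, y 2] := by
      rw [← Matrix.mulVec_mulVec, ← hy, ← Matrix.mulVec_mulVec]
      congr 1
      funext i
      rw [Matrix.mulVec_diagonal]
      fin_cases i <;> simp
    rw [hM, ← eN, hc]
    have h3 := eD y
    rw [hx, ← eN c' N' y, hc', ← h3]
    simp

/-- Two smooth cubic forms with the same invariant are projectively equivalent. -/
theorem proj_of {P P' : MvPolynomial (Fin 3) k} (hP : P.IsHomogeneous 3) (hP' : P'.IsHomogeneous 3)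
    (hs : SmoC P) (hs' : SmoC P') (hj : PS (cf P) ^ 3 * PT (cf P') ^ 2 = PS (cf P') ^ 3 * PT (cf P) ^ 2) :
    ∃ (M : Matrix (Fin 3) (Fin 3) k) (t : k), M.det ≠ 0 ∧ t ≠ 0 ∧ ∀ x : Fin 3 → k,
      MvPolynomial.eval (M.mulVec x) P = t * MvPolynomial.eval x P' := by
  have hc : ∀ {P : MvPolynomial (Fin 3) k}, P.IsHomogeneous 3 → P = cubP (cf P) := by
    intro P hP
    unfold cubP
    have h2 := cf_spec hP (R := MvPolynomial (Fin 3) k) MvPolynomial.X
    rw [MvPolynomial.aeval_X_left_apply] at h2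
    exact h2
  have hd : ∀ {P : MvPolynomial (Fin 3) k}, P.IsHomogeneous 3 → SmoC P →
      ∀ p : Fin 3 → k, (∀ q, dcub (cf P) p q = 0) → p = 0 := by
    intro P hP hs p hp
    apply hs
    intro i
    have h1 := hc hP
    rw [congrArg (MvPolynomial.pderiv i) h1, eval_pderiv]
    exact hp _
  have he : ∀ {P : MvPolynomial (Fin 3) k}, P.IsHomogeneous 3 → ∀ x : Fin 3 → k,
      MvPolynomial.eval x P = Pool.Agent.Helper83.PC.cub (cf P) (x 0) (x 1) (x 2) := by
    intro P hP x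
    rw [← eval_cubP, ← hc hP]
  obtain ⟨M, t, hM, ht, h⟩ := exists_equiv (hd hP hs) (hd hP' hs') hj
  refine ⟨M, t, hM, ht, fun x => ?_⟩
  rw [he hP, he hP', h]

end Pool.Agent.NT28
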